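import Pool.Agent.Lib.Tate.R.W
import Pool.Agent.Lib.Tate.W.P3
import Pool.Agent.Lib.Tate.W.Se
import Pool.Agent.Lib.Tate.W.WP
import Pool.Agent.Lib.Tate.W.Cc
import Pool.Agent.Lib.Tate.Conn.N2
import Pool.Agent.Lib.Tate.Conn.Pc
import Pool.Agent.Lib.Tate.Conn.Us
import Pool.Agent.Lib.Tate.Conn.Ba
import Pool.Agent.Lib.Tate.Conn.Cn
import Pool.Agent.Lib.Tate.Conn.Nr
import Pool.Agent.Lib.Tate.Conn.Cb
import Pool.Agent.Lib.Tate.Conn.Da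
import Pool.Agent.Lib.Tate.Conn.Mh
import Pool.Agent.Lib.Tate.Conn.Me
import Pool.Agent.Lib.Tate.Conn.Ph
import Pool.Agent.Lib.Tate.Conn.Ht
import Pool.Agent.Lib.Tate.Conn.Os
import Pool.Agent.Lib.Tate.Conn.Lb
import Pool.Agent.Lib.Tate.Conn.Cu
import Pool.Agent.Lib.Tate.Conn.Ma
import Pool.Agent.Lib.Tate.Conn.Mb
import Pool.Agent.Lib.Tate.Conn.Mn
import Pool.Agent.Lib.Tate.Conn.Mf
import Pool.Agent.Lib.Tate.Conn.Af
import Pool.Agent.Lib.Tate.Conn.Pa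
import Pool.Agent.Lib.Tate.Inj.Ar
import Pool.Agent.Lib.Tate.Inj.Bd
import Pool.Agent.Lib.Tate.Inj.C0
import Pool.Agent.Lib.Tate.Inj.C1
import Pool.Agent.Lib.Tate.Inj.Cl
import Pool.Agent.Lib.Tate.Inj.Cm
import Pool.Agent.Lib.Tate.Inj.Co
import Pool.Agent.Lib.Tate.Inj.Ct
import Pool.Agent.Lib.Tate.Inj.Fr
import Pool.Agent.Lib.Tate.Inj.Gp
import Pool.Agent.Lib.Tate.Inj.Ha
import Pool.Agent.Lib.Tate.Inj.Hm
import Pool.Agent.Lib.Tate.Inj.In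
import Pool.Agent.Lib.Tate.Inj.Op
import Pool.Agent.Lib.Tate.Inj.P1
import Pool.Agent.Lib.Tate.Inj.P2
import Pool.Agent.Lib.Tate.Inj.Qc
import Pool.Agent.Lib.Tate.Inj.Qt
import Pool.Agent.Lib.Tate.Inj.Sg
import Pool.Agent.Lib.Tate.Inj.Un

/-!
# MP_071d69_gt: properties of the witness `WS` (Hausdorff, well-pointed, semistable), and the
unconditional forms of the blocks Conn and Inj
-/

set_option linter.unusedSectionVars false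

open Topology unitInterval Filter Set
open scoped Topology.Homotopy ZeroAtInfty OnePoint

noncomputable section

namespace Pool.Agent.Tate

theorem Cnn.qUs : Cnn.S_Us := Cnn.pUs Cnn.pN2

theorem Cnn.qPc : Cnn.S_Pc := Cnn.pPc Cnn.pN1 Cnn.qUs Cnn.pBu

/-- Configuration spaces of `V` are highly connected. -/
theorem Cnn.qCn : Cnn.S_Cn :=
  Cnn.pCn (Cnn.pCb (Cnn.pDa Cnn.pOs (Cnn.pLb Cnn.qUs Cnn.pCu))
    (Cnn.pMh Cnn.qPc (Cnn.pMa Cnn.pMn) (Cnn.pMb Cnn.pMn) Cnn.pMn) (Cnn.pMe Cnn.pMf Cnn.pAf)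
    (Cnn.pPh Cnn.qPc Cnn.pPa) Cnn.pHt Cnn.pBa) Cnn.pNr

theorem Cel.qCo : Cel.S_Co := Cel.pCo Cel.pHa

theorem Cel.qCt : Cel.S_Ct := Cel.pCt Cel.pHa Cel.pUn Cel.qCo

theorem Cel.qQc : Cel.S_Qc := Cel.pQc Cel.pSg

/-- Extension of equivariant null homotopies. -/
theorem Cel.qIn : Cel.S_In :=
  Cel.pIn Cel.qCt
    (Cel.pFr (Cel.pCl Cel.pUn Cel.pQt Cel.pSg Cel.qQc (Cel.pBd Cel.qQc Cel.pHa Cel.qCo))
      (Cel.pC0 Cel.pHm Cel.pGp) (Cel.pC1 Cel.pHm Cel.pGp Cel.pAr))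
    (Cel.pCm Cel.pHa Cel.pUn Cel.qCo Cel.qCt) (Cel.pP1 Cel.pHa) (Cel.pP2 Cel.pHa)

theorem WS_SS : T2.SS WS := by
  intro A _ _ γ hγ
  obtain ⟨H, h0, h1, h2⟩ := Wi.pSe (Wi.pP3 Wi.pCc Cnn.qPc) Wi.pRe A γ hγ
  exact ⟨H, H.continuous, h0, h1, h2⟩

theorem WS_semistable : WS.Semistable := WS_SS.semistable

theorem WS_T2 (A : Type) [Fintype A] [DecidableEq A] : T2Space (WS.X A) := by
  have := Wi.pT2 Cnn.pBu (A → VV) (A → ZMod 4)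
  exact inferInstanceAs (T2Space {c : CW A // c.Inv})

theorem WS_WP (A : Type) [Fintype A] [DecidableEq A] : WellPointed (WS.X A) (WS.pt A) :=
  Wi.pWP Cnn.pN2 Cnn.qPc A

end Pool.Agent.Tate
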