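import Pool.Agent.Lib.Tate.WAll
import Pool.Agent.Lib.Tate.T2.Api

/-!
# MP_071d69_gt: `K(1)`-acyclicity of the witness from the three relations
-/

open Topology unitInterval Filter Set

noncomputable section

namespace Pool.Agent.Tate

/-- The algebra of part A: `1 + l + l² + l³ = 0`, `b = (l - 1) u`, `1 = b u' + 2 v` imply that `2` is
invertible. -/
theorem half_of_relations {R : Type*} [CommRing R] (l b u u' v : R)
    (h1 : 1 + l + l ^ 2 + l ^ 3 = 0) (h2 : b = (l - 1) * u) (h3 : 1 = b * u' + 2 * v) :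
    ∃ y : R, 2 * y = 1 := by
  refine ⟨(-2 * l ^ 2 + l - 1) * (u * u') ^ 3 + 3 * (b * u') ^ 2 * v + 6 * (b * u') * v ^ 2 +
    4 * v ^ 3, ?_⟩
  have h4 : (l - 1) ^ 3 = 2 * (-2 * l ^ 2 + l - 1) := by
    linear_combination h1
  have h5 : (b * u') ^ 3 = 2 * ((-2 * l ^ 2 + l - 1) * (u * u') ^ 3) := by
    rw [h2]
    linear_combination (u * u') ^ 3 * h4
  have h6 : (1 : R) = (b * u' + 2 * v) ^ 3 := by
    rw [← h3]
    ring
  linear_combination -h5 - h6

instance factSS : Fact (T2.SS WS) := ⟨WS_SS⟩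

theorem WS_K1_of (l b u u' v : T2.StR WS) (h1 : 1 + l + l ^ 2 + l ^ 3 = 0)
    (h2 : b = (l - 1) * u) (h3 : 1 = b * u' + 2 * v) : WS.K1Acyclic :=
  T2.k1 (half_of_relations l b u u' v h1 h2 h3)

end Pool.Agent.Tate
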