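import Pool.Agent.Lib.Tate.G.All
import Pool.Agent.Lib.Tate.R.R3.R3
import Pool.Agent.Lib.Tate.R.R2.R2

/-!
# MP_071d69_gt: the witness is `K(1)`-acyclic

The three relations in the ring of stable classes of `WS ∧ Σ^∞ CP^∞_+ [b⁻¹]`: `1 + λ + λ² + λ³ = 0`
(`R1.r1`), `bet = (λ - 1) u` (`R2.r2`), `1 = bet u' + 2 v` (`R3.r3`).
-/

noncomputable section

namespace Pool.Agent.Tate

/-- The witness is `K(1)`-acyclic at the prime `2`. -/
theorem WS_K1 : WS.K1Acyclic := by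
  obtain ⟨u, h2⟩ := R2.r2
  obtain ⟨u', v, h3⟩ := R3.r3
  exact WS_K1_of R1.lamS _ u u' v R1.r1 h2 h3

end Pool.Agent.Tate
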