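import Mathlib

/-!
# C42 (MP_071d69_gt): finite configurations with orthogonal projections as labels

`Conf Y I`: functions `P` from `Y` to the matrices `Matrix I I ℂ`, different from `0` only at finitely many
points, whose values are mutually orthogonal hermitian projections.  Topology: induced by the maps
`c ↦ ∑ f(y) P(y)`, `f` continuous and zero at infinity.  `push m c`: the points are moved by
`m : Y → OnePoint Y'` (labels of points with the same image are added, points with image `∞` disappear).
-/

set_option autoImplicit false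

open Set Filter Topology
open scoped OnePoint ZeroAtInfty

noncomputable section

namespace Pool.Agent.Tate

/-- Finite configurations on `Y` with labels: mutually orthogonal hermitian projections. -/
@[ext] structure Conf (Y I : Type) [Fintype I] where
  /-- the label of a point (`0` if the point is not in the configuration) -/
  P : Y → Matrix I I ℂ
  fin : {y | P y ≠ 0}.Finite
  herm : ∀ y, (P y).IsHermitian
  idem : ∀ y, P y * P y = P y
  orth : ∀ y y', y ≠ y' → P y * P y' = 0

namespace Conf

variable {Y Y' Y'' I : Type} [Fintype I]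

/-- `∑ f(y) P(y)`. -/
def ev (c : Conf Y I) (f : Y → ℝ) : Matrix I I ℂ := ∑ᶠ y, (f y : ℂ) • c.P y

/-- The topology induced by the maps `c ↦ ∑ f(y) P(y)`, `f ∈ C₀(Y, ℝ)`. -/
instance [TopologicalSpace Y] : TopologicalSpace (Conf Y I) :=
  TopologicalSpace.induced (fun (c : Conf Y I) (f : C₀(Y, ℝ)) => c.ev f) inferInstance

/-- The empty configuration. -/
instance : Inhabited (Conf Y I) :=
  ⟨{ P := fun _ => 0
     fin := by simp
     herm := fun _ => Matrix.isHermitian_zero
     idem := by simp
     orth := by simp }⟩

@[simp] theorem default_P (y : Y) : (default : Conf Y I).P y = 0 := rfl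

theorem ev_eq_sum (c : Conf Y I) (f : Y → ℝ) :
    c.ev f = ∑ y ∈ c.fin.toFinset, (f y : ℂ) • c.P y := by
  unfold ev
  apply finsum_eq_sum_of_support_subset
  intro y hy
  simp only [Function.mem_support, ne_eq] at hy
  simp only [Finite.coe_toFinset, mem_ofPred_eq]
  intro h
  exact hy (by simp [h])

theorem ev_apply (c : Conf Y I) (f : Y → ℝ) (a b : I) :
    c.ev f a b = ∑ y ∈ c.fin.toFinset, (f y : ℂ) * c.P y a b := by
  rw [ev_eq_sum, Matrix.sum_apply]
  simp

/-- Continuity of a map to `Conf Y I`. -/
theorem tendsto_iff [TopologicalSpace Y] {X : Type*} {l : Filter X} {g : X → Conf Y I}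
    {c : Conf Y I} :
    Tendsto g l (𝓝 c) ↔ ∀ f : C₀(Y, ℝ), Tendsto (fun x => (g x).ev f) l (𝓝 (c.ev f)) := by
  rw [(Topology.IsInducing.induced (fun (c : Conf Y I) (f : C₀(Y, ℝ)) => c.ev f)).nhds_eq_comap,
    tendsto_comap_iff, tendsto_pi_nhds]
  rfl

theorem continuousWithinAt_iff [TopologicalSpace Y] {X : Type*} [TopologicalSpace X] {S : Set X}
    {g : X → Conf Y I} {x : X} :
    ContinuousWithinAt g S x ↔ ∀ f : C₀(Y, ℝ), ContinuousWithinAt (fun x => (g x).ev f) S x :=
  tendsto_iff

theorem continuous_iff [TopologicalSpace Y] {X : Type*} [TopologicalSpace X]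
    {g : X → Conf Y I} :
    Continuous g ↔ ∀ f : C₀(Y, ℝ), Continuous fun x => (g x).ev f := by
  simp only [continuous_iff_continuousAt]
  exact ⟨fun h f x => tendsto_iff.1 (h x) f, fun h x => tendsto_iff.2 fun f => h f x⟩

open Classical in
/-- The label of `y'` in `push m c`. -/
def pushP (m : Y → OnePoint Y') (c : Conf Y I) (y' : Y') : Matrix I I ℂ :=
  ∑ y ∈ c.fin.toFinset with m y = (y' : OnePoint Y'), c.P y

/-- Moving the points of a configuration. -/
def push (m : Y → OnePoint Y') (c : Conf Y I) : Conf Y' I where
  P := pushP m c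
  fin := by
    classical
    refine (c.fin.toFinset.finite_toSet.image fun y => OnePoint.elim (m y) none some).preimage
      (f := fun y' : Y' => (some y' : Option Y')) (fun a _ b _ h => Option.some_injective _ h)
      |>.subset ?_
    intro y' hy'
    by_contra hcon
    apply hy'
    unfold pushP
    rw [Finset.sum_eq_zero]
    intro y hy
    rw [Finset.mem_filter] at hy
    exact absurd ⟨y, hy.1, by simp [hy.2]⟩ hcon
  herm y' := by
    unfold pushP
    rw [Matrix.IsHermitian, Matrix.conjTranspose_sum]
    exact Finset.sum_congr rfl fun y _ => c.herm y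
  idem y' := by
    classical
    unfold pushP
    rw [Finset.sum_mul_sum]
    refine Finset.sum_congr rfl fun y hy => ?_
    rw [Finset.sum_eq_single y (fun z _ hz => c.orth _ _ hz.symm) (fun h => absurd hy h), c.idem]
  orth y' y'' h := by
    classical
    unfold pushP
    rw [Finset.sum_mul_sum]
    refine Finset.sum_eq_zero fun y hy => Finset.sum_eq_zero fun z hz => c.orth _ _ ?_
    rintro rfl
    rw [Finset.mem_filter] at hy hz
    exact h (OnePoint.coe_injective (hy.2.symm.trans hz.2))

theorem push_P (m : Y → OnePoint Y') (c : Conf Y I) (y' : Y') : (push m c).P y' = pushP m c y' := rfl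

/-- A point of `push m c` is the image of a point of `c`. -/
theorem exists_of_push_ne {m : Y → OnePoint Y'} {c : Conf Y I} {y' : Y'}
    (h : (push m c).P y' ≠ 0) : ∃ y, c.P y ≠ 0 ∧ m y = y' := by
  classical
  rw [push_P, pushP] at h
  obtain ⟨y, hy, -⟩ := Finset.exists_ne_zero_of_sum_ne_zero h
  rw [Finset.mem_filter] at hy
  exact ⟨y, by simpa using hy.1, hy.2⟩

theorem mul_push_P {m : Y → OnePoint Y'} (c : Conf Y I) {y : Y} {y' : Y'} (h : m y = y') :
    c.P y * (push m c).P y' = c.P y := by
  classical
  by_cases hy : c.P y = 0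
  · simp [hy]
  rw [push_P, pushP, Finset.mul_sum, Finset.sum_eq_single y, c.idem]
  · intro z _ hz
    exact c.orth _ _ hz.symm
  · intro hn
    refine absurd ?_ hn
    rw [Finset.mem_filter]
    exact ⟨by simpa using hy, h⟩

/-- The image of a point of `c` is a point of `push m c`. -/
theorem push_ne {m : Y → OnePoint Y'} {c : Conf Y I} {y : Y} {y' : Y'} (h : m y = y')
    (hy : c.P y ≠ 0) : (push m c).P y' ≠ 0 := by
  intro h0
  apply hy
  rw [← mul_push_P c h, h0, mul_zero]

/-- `push m c`, tested with a function. -/
theorem ev_push (m : Y → OnePoint Y') (c : Conf Y I) (f : Y' → ℝ) :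
    (push m c).ev f = c.ev fun y => OnePoint.elim (m y) 0 f := by
  classical
  have key : ∀ z : Y', (f z : ℂ) • (push m c).P z =
      ∑ y ∈ c.fin.toFinset, if m y = (z : OnePoint Y') then (f z : ℂ) • c.P y else 0 := by
    intro z
    rw [push_P, pushP, Finset.smul_sum, Finset.sum_filter]
  rw [ev_eq_sum, ev_eq_sum, Finset.sum_congr rfl fun z _ => key z, Finset.sum_comm]
  refine Finset.sum_congr rfl fun y hy => ?_
  cases hm : m y using OnePoint.rec with
  | infty => simp
  | coe z =>
    simp only [OnePoint.elim_some, OnePoint.coe_eq_coe]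
    rw [Finset.sum_eq_single z]
    · simp
    · intro z' _ hz'
      simp [hz'.symm]
    · intro hn
      refine absurd ?_ hn
      rw [Finite.mem_toFinset]
      exact push_ne hm (by simpa using hy)

/-- Two configurations with the same labels are equal (`Conf.ext`); the empty configuration. -/
theorem eq_default {c : Conf Y I} (h : ∀ y, c.P y = 0) : c = default := by
  ext y : 2
  simpa using h y

theorem push_coe (c : Conf Y I) : push (fun y : Y => (y : OnePoint Y)) c = c := by
  classical
  ext y : 2
  rw [push_P, pushP]
  by_cases hy : c.P y = 0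
  · rw [hy]
    refine Finset.sum_eq_zero fun z hz => ?_
    rw [Finset.mem_filter] at hz
    have : z = y := by simpa using hz.2
    rw [this, hy]
  · rw [Finset.sum_eq_single y]
    · intro z hz hzy
      rw [Finset.mem_filter] at hz
      exact absurd (by simpa using hz.2) hzy
    · intro hn
      refine absurd ?_ hn
      rw [Finset.mem_filter]
      exact ⟨by simpa using hy, rfl⟩

/-- If all points have the image `∞`, then nothing remains. -/
theorem push_infty {m : Y → OnePoint Y'} {c : Conf Y I} (h : ∀ y, c.P y ≠ 0 → m y = ∞) :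
    push m c = default := by
  apply eq_default
  intro y'
  by_contra hy'
  obtain ⟨y, hy, hm⟩ := exists_of_push_ne hy'
  rw [h y hy] at hm
  exact OnePoint.infty_ne_coe _ hm

/-- `push` depends only on the images of the points. -/
theorem push_congr {m m' : Y → OnePoint Y'} {c : Conf Y I} (h : ∀ y, c.P y ≠ 0 → m y = m' y) :
    push m c = push m' c := by
  classical
  ext y' : 2
  rw [push_P, push_P, pushP, pushP]
  congr 1
  apply Finset.filter_congr
  intro y hy
  rw [h y (by simpa using hy)]

end Conf

end Pool.Agent.Tate
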