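import Mathlib

/-!
# MP_071d69_gt: commutative symmetric ring spectra, stable homotopy

Definitions for the statement of the theorem, part 1.
-/

set_option linter.unusedSectionVars false

open Topology unitInterval
open scoped Topology.Homotopy

noncomputable section

namespace Pool.Agent.Tate

/-! ## 1. Commutative symmetric ring spectra -/

/-- A commutative symmetric ring spectrum (in topological spaces), in coordinate free form: a lax
symmetric monoidal functor `A ↦ X A` from finite sets and bijections to pointed spaces, with a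
monoidal natural transformation `unit` from the sphere functor `A ↦ S^A = I^A / ∂ I^A`
(the `A`-fold smash power of the circle `I / ∂ I`).
The commutative monoids in symmetric spectra of Hovey, Shipley and Smith (for the topological
version see S. Schwede, *Symmetric spectra*, Chapter I) are exactly these data; `X (Fin n)` is the
`n`-th space with its action of the symmetric group, and the structure map is
`X A ∧ S^B → X (A ⊕ B)`, `(x, s) ↦ mul x (unit B s)`.  Every commutative symmetric ring spectrum is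
(has an underlying) `E_∞`-ring with the same underlying spectrum, and up to equivalence all
`E_∞`-rings arise in this way. -/
structure CSRS where
  /-- the spaces -/
  X : ∀ (A : Type) [Fintype A] [DecidableEq A], Type
  /-- their topologies -/
  [top : ∀ (A : Type) [Fintype A] [DecidableEq A], TopologicalSpace (X A)]
  /-- the base points -/
  pt : ∀ (A : Type) [Fintype A] [DecidableEq A], X A
  closed_pt : ∀ (A : Type) [Fintype A] [DecidableEq A], IsClosed {pt A}
  /-- functoriality in bijections (in particular the actions of the symmetric groups) -/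
  map : ∀ {A B : Type} [Fintype A] [DecidableEq A] [Fintype B] [DecidableEq B],
    (A ≃ B) → X A → X B
  continuous_map : ∀ {A B : Type} [Fintype A] [DecidableEq A] [Fintype B] [DecidableEq B]
    (e : A ≃ B), Continuous (map e)
  map_pt : ∀ {A B : Type} [Fintype A] [DecidableEq A] [Fintype B] [DecidableEq B]
    (e : A ≃ B), map e (pt A) = pt B
  map_refl : ∀ {A : Type} [Fintype A] [DecidableEq A] (x : X A), map (Equiv.refl A) x = x
  map_trans : ∀ {A B C : Type} [Fintype A] [DecidableEq A] [Fintype B] [DecidableEq B]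
    [Fintype C] [DecidableEq C] (e : A ≃ B) (f : B ≃ C) (x : X A),
    map (e.trans f) x = map f (map e x)
  /-- the product `X A ∧ X B → X (A ⊕ B)` -/
  mul : ∀ {A B : Type} [Fintype A] [DecidableEq A] [Fintype B] [DecidableEq B],
    X A → X B → X (A ⊕ B)
  continuous_mul : ∀ {A B : Type} [Fintype A] [DecidableEq A] [Fintype B] [DecidableEq B],
    Continuous fun p : X A × X B => mul p.1 p.2
  pt_mul : ∀ {A B : Type} [Fintype A] [DecidableEq A] [Fintype B] [DecidableEq B] (y : X B),
    mul (pt A) y = pt (A ⊕ B)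
  mul_pt : ∀ {A B : Type} [Fintype A] [DecidableEq A] [Fintype B] [DecidableEq B] (x : X A),
    mul x (pt B) = pt (A ⊕ B)
  map_mul : ∀ {A A' B B' : Type} [Fintype A] [DecidableEq A] [Fintype A'] [DecidableEq A']
    [Fintype B] [DecidableEq B] [Fintype B'] [DecidableEq B'] (e : A ≃ A') (f : B ≃ B')
    (x : X A) (y : X B), map (Equiv.sumCongr e f) (mul x y) = mul (map e x) (map f y)
  mul_assoc : ∀ {A B C : Type} [Fintype A] [DecidableEq A] [Fintype B] [DecidableEq B]
    [Fintype C] [DecidableEq C] (x : X A) (y : X B) (z : X C),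
    map (Equiv.sumAssoc A B C) (mul (mul x y) z) = mul x (mul y z)
  mul_comm : ∀ {A B : Type} [Fintype A] [DecidableEq A] [Fintype B] [DecidableEq B]
    (x : X A) (y : X B), map (Equiv.sumComm A B) (mul x y) = mul y x
  /-- the unit maps `S^A = I^A / ∂ I^A → X A` -/
  unit : ∀ (A : Type) [Fintype A] [DecidableEq A], GenLoop A (X A) (pt A)
  map_unit : ∀ {A B : Type} [Fintype A] [DecidableEq A] [Fintype B] [DecidableEq B]
    (e : A ≃ B) (s : A → I), map e (unit A s) = unit B (s ∘ e.symm)
  unit_mul : ∀ {A B : Type} [Fintype A] [DecidableEq A] [Fintype B] [DecidableEq B]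
    (s : A → I) (t : B → I), mul (unit A s) (unit B t) = unit (A ⊕ B) (Sum.elim s t)
  one_mul : ∀ {A : Type} [Fintype A] [DecidableEq A] (x : X A),
    map (Equiv.emptySum Empty A) (mul (unit Empty Empty.elim) x) = x

namespace CSRS

variable (E : CSRS)

attribute [instance] CSRS.top

/-- `Ω^N (X A)`: maps of the sphere `S^N = I^N / ∂ I^N` to the space `X A`. -/
abbrev L (N A : Type) [Fintype A] [DecidableEq A] := GenLoop N (E.X A) (E.pt A)

/-- The homotopy group `π_N (X A)` (a group for nonempty `N`). -/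
abbrev P (N A : Type) [Fintype A] [DecidableEq A] := HomotopyGroup N (E.X A) (E.pt A)

variable {E}
variable {N M A B C : Type} [Fintype A] [DecidableEq A] [Fintype B] [DecidableEq B]
  [Fintype C] [DecidableEq C]

/-- The exterior product `S^N ∧ S^M → X A ∧ X B → X (A ⊕ B)`. -/
def prod (f : E.L N A) (g : E.L M B) : E.L (N ⊕ M) (A ⊕ B) :=
  ⟨⟨fun s => E.mul (f (s ∘ Sum.inl)) (g (s ∘ Sum.inr)),
    E.continuous_mul.comp (Continuous.prodMk
      (f.1.continuous.comp (by fun_prop)) (g.1.continuous.comp (by fun_prop)))⟩, by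
    rintro s ⟨i | i, hi⟩
    · have : f (s ∘ Sum.inl) = E.pt A := f.2 _ ⟨i, hi⟩
      show E.mul (f (s ∘ Sum.inl)) _ = _
      rw [this, E.pt_mul]
    · have : g (s ∘ Sum.inr) = E.pt B := g.2 _ ⟨i, hi⟩
      show E.mul _ (g (s ∘ Sum.inr)) = _
      rw [this, E.mul_pt]⟩

/-- Stabilisation by the sphere `S^C`: a map `f : S^N → X A` gives
`f ∧ S^C : S^(N ⊕ C) → X (A ⊕ C)`. -/
def st (C : Type) [Fintype C] [DecidableEq C] (f : E.L N A) : E.L (N ⊕ C) (A ⊕ C) :=
  prod f (E.unit C)

/-- The action of a bijection on representatives (on the target only). -/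
def push (e : A ≃ B) (f : E.L N A) : E.L N B :=
  ⟨⟨fun s => E.map e (f s), (E.continuous_map e).comp f.1.continuous⟩, by
    intro s hs
    show E.map e (f.1 s) = _
    rw [f.2 s hs, E.map_pt]⟩

/-- The homotopy class of a map `S^N → X A`. -/
def cls (f : E.L N A) : E.P N A := Quotient.mk _ f

/-- A based map `S^N → X A` is stably trivial. -/
def StNull (f : E.L N A) : Prop :=
  ∃ n : ℕ, GenLoop.Homotopic (st (Fin n) f) GenLoop.const

variable (E)

/-- Semistable: all even permutations act trivially on the (naive) stable homotopy groups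
`π_k E = colim_n π_(k+n) (X (Fin n))`, `k ∈ ℤ`.  (As `τ ∈ Σ_2` acts on `S^2` with degree `-1`,
odd permutations then act by `-1`, so the monoid of injections acts trivially on `π_* E`; this is
semistability, see Hovey-Shipley-Smith, Section 5.6, and Schwede, *On the homotopy groups of
symmetric spectra*, Theorem 4.1.)  For semistable symmetric spectra the naive homotopy groups are
the homotopy groups of the underlying spectrum, and the naive fibrant replacement
`A ↦ hocolim_m Ω^m X (A ⊕ Fin m)` is an `Ω`-spectrum which computes it. -/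
def Semistable : Prop :=
  ∀ (N A : Type) [Fintype N] [DecidableEq N] [Fintype A] [DecidableEq A] (f : E.L N A)
    (γ : Equiv.Perm A), Equiv.Perm.sign γ = 1 →
    ∃ n : ℕ, GenLoop.Homotopic (st (Fin n) (push γ f)) (st (Fin n) f)

end CSRS

/-- The pair `(X, x₀)` is an NDR pair (the space `X` is well-pointed). -/
def WellPointed (X : Type) [TopologicalSpace X] (x₀ : X) : Prop :=
  ∃ (u : C(X, I)) (h : C(I × X, X)), (∀ x, u x = 0 ↔ x = x₀) ∧ (∀ x, h (0, x) = x) ∧
    (∀ t, h (t, x₀) = x₀) ∧ ∀ x, u x < 1 → h (1, x) = x₀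

/-! ## 2. The spectrum `E ∧ CP^∞_+` -/

section smash

variable {X : Type} [TopologicalSpace X] (x₀ : X) (K : Type) [TopologicalSpace K]

/-- The equivalence relation which collapses `{x₀} × K` to a point. -/
def smSetoid : Setoid (X × K) where
  r p q := p = q ∨ (p.1 = x₀ ∧ q.1 = x₀)
  iseqv :=
    { refl := fun p => Or.inl rfl
      symm := by
        rintro p q (h | ⟨h, h'⟩)
        · exact Or.inl h.symm
        · exact Or.inr ⟨h', h⟩
      trans := by
        rintro p q r (h | ⟨h, h'⟩) (g | ⟨g, g'⟩)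
        · exact Or.inl (h.trans g)
        · exact Or.inr ⟨h ▸ g, g'⟩
        · exact Or.inr ⟨h, g ▸ h'⟩
        · exact Or.inr ⟨h, g'⟩ }

/-- The smash product `X ∧ K_+ = (X × K) / ({x₀} × K)` with the quotient topology. -/
def Sm : Type := Quotient (smSetoid x₀ K)

instance : TopologicalSpace (Sm x₀ K) := instTopologicalSpaceQuotient

variable {x₀ K}

/-- The class of `(x, k)`. -/
def Sm.mk (x : X) (k : K) : Sm x₀ K := Quotient.mk (smSetoid x₀ K) (x, k)

theorem Sm.mk_eq (x x' : X) (k k' : K) :
    (Sm.mk x k : Sm x₀ K) = Sm.mk x' k' ↔ (x = x' ∧ k = k') ∨ (x = x₀ ∧ x' = x₀) := by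
  have h : (Sm.mk x k : Sm x₀ K) = Sm.mk x' k' ↔ (smSetoid x₀ K).r (x, k) (x', k') :=
    Quotient.eq (r := smSetoid x₀ K)
  rw [h]
  show ((x, k) = (x', k') ∨ _) ↔ _
  rw [Prod.mk.injEq]

theorem Sm.mk_pt (k k' : K) : (Sm.mk x₀ k : Sm x₀ K) = Sm.mk x₀ k' :=
  (Sm.mk_eq _ _ _ _).2 (Or.inr ⟨rfl, rfl⟩)

theorem Sm.isQuotientMap : IsQuotientMap fun p : X × K => (Sm.mk p.1 p.2 : Sm x₀ K) :=
  isQuotientMap_quotient_mk'

theorem Sm.isProperMap [CompactSpace K] (h0 : IsClosed {x₀}) :
    IsProperMap fun p : X × K => (Sm.mk p.1 p.2 : Sm x₀ K) := by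
  have hc : IsClosed ({x₀} ×ˢ Set.univ : Set (X × K)) := h0.prod isClosed_univ
  rw [isProperMap_iff_isClosedMap_and_compact_fibers]
  refine ⟨Sm.isQuotientMap.continuous, ?_, ?_⟩
  · intro Z hZ
    rw [← Sm.isQuotientMap.isClosed_preimage]
    by_cases hz : ∃ z ∈ Z, z.1 = x₀
    · have : (fun p : X × K => (Sm.mk p.1 p.2 : Sm x₀ K)) ⁻¹'
          ((fun p : X × K => (Sm.mk p.1 p.2 : Sm x₀ K)) '' Z) = Z ∪ {x₀} ×ˢ Set.univ := by
        ext p
        constructor
        · rintro ⟨q, hq, hqp⟩
          rcases (Sm.mk_eq _ _ _ _).1 hqp with ⟨h1, h2⟩ | ⟨h1, h2⟩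
          · left
            rwa [← Prod.ext h1 h2]
          · right
            exact ⟨h2, trivial⟩
        · rintro (hp | ⟨hp, -⟩)
          · exact ⟨p, hp, rfl⟩
          · obtain ⟨z, hz, hz0⟩ := hz
            exact ⟨z, hz, (Sm.mk_eq _ _ _ _).2 (Or.inr ⟨hz0, hp⟩)⟩
      rw [this]
      exact hZ.union hc
    · have : (fun p : X × K => (Sm.mk p.1 p.2 : Sm x₀ K)) ⁻¹'
          ((fun p : X × K => (Sm.mk p.1 p.2 : Sm x₀ K)) '' Z) = Z := by
        ext p
        constructor
        · rintro ⟨q, hq, hqp⟩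
          rcases (Sm.mk_eq _ _ _ _).1 hqp with ⟨h1, h2⟩ | ⟨h1, h2⟩
          · rwa [← Prod.ext h1 h2]
          · exact absurd ⟨q, hq, h1⟩ hz
        · intro hp
          exact ⟨p, hp, rfl⟩
      rw [this]
      exact hZ
  · intro y
    obtain ⟨⟨x, k⟩, rfl⟩ := Quotient.exists_rep y
    by_cases hx : x = x₀
    · have : (fun p : X × K => (Sm.mk p.1 p.2 : Sm x₀ K)) ⁻¹' {Sm.mk x k} =
          {x₀} ×ˢ Set.univ := by
        ext ⟨x', k'⟩
        constructor
        · intro h
          rcases (Sm.mk_eq _ _ _ _).1 h with ⟨h1, h2⟩ | ⟨h1, h2⟩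
          · exact ⟨h1.trans hx, trivial⟩
          · exact ⟨h1, trivial⟩
        · rintro ⟨h, -⟩
          exact (Sm.mk_eq _ _ _ _).2 (Or.inr ⟨h, hx⟩)
      show IsCompact ((fun p : X × K => (Sm.mk p.1 p.2 : Sm x₀ K)) ⁻¹' {Sm.mk x k})
      rw [this]
      exact isCompact_singleton.prod isCompact_univ
    · have : (fun p : X × K => (Sm.mk p.1 p.2 : Sm x₀ K)) ⁻¹' {Sm.mk x k} = {(x, k)} := by
        ext ⟨x', k'⟩
        constructor
        · intro h
          rcases (Sm.mk_eq _ _ _ _).1 h with ⟨h1, h2⟩ | ⟨h1, h2⟩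
          · exact Prod.ext h1 h2
          · exact absurd h2 hx
        · rintro h
          rw [Set.mem_singleton_iff, Prod.mk.injEq] at h
          exact (Sm.mk_eq _ _ _ _).2 (Or.inl h)
      show IsCompact ((fun p : X × K => (Sm.mk p.1 p.2 : Sm x₀ K)) ⁻¹' {Sm.mk x k})
      rw [this]
      exact isCompact_singleton

/-- Continuity of maps to `X ∧ K_+` (`K` compact): the second coordinate need only be continuous
where the first one is not the base point. -/
theorem Sm.continuous_mk [CompactSpace K] {Z : Type*} [TopologicalSpace Z] {F : Z → X} {g : Z → K}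
    (hF : Continuous F) (hg : ∀ z, F z ≠ x₀ → ContinuousAt g z) :
    Continuous fun z => (Sm.mk (F z) (g z) : Sm x₀ K) := by
  rw [continuous_iff_continuousAt]
  intro z
  by_cases hz : F z = x₀
  · intro W hW
    obtain ⟨W', hW', hWo, hWm⟩ := mem_nhds_iff.1 hW
    have ho : IsOpen ((fun p : X × K => (Sm.mk p.1 p.2 : Sm x₀ K)) ⁻¹' W') :=
      hWo.preimage Sm.isQuotientMap.continuous
    have hsub : ({x₀} : Set X) ×ˢ (Set.univ : Set K) ⊆
        (fun p : X × K => (Sm.mk p.1 p.2 : Sm x₀ K)) ⁻¹' W' := by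
      rintro ⟨x, k⟩ ⟨hx, -⟩
      have hx' : x = x₀ := hx
      show Sm.mk x k ∈ W'
      rw [hx', Sm.mk_pt k (g z)]
      have : Sm.mk (F z) (g z) ∈ W' := hWm
      rwa [hz] at this
    obtain ⟨u, v, hu, hv, hxu, hkv, huv⟩ :=
      generalized_tube_lemma isCompact_singleton isCompact_univ ho hsub
    have : F ⁻¹' u ∈ 𝓝 z := hF.continuousAt (hu.mem_nhds (by rw [hz]; exact hxu rfl))
    rw [Filter.mem_map]
    filter_upwards [this] with z' hz'
    exact hW' (huv (⟨hz', hkv trivial⟩ : (F z', g z') ∈ u ×ˢ v))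
  · exact ContinuousAt.comp (x := z) (g := fun p : X × K => (Sm.mk p.1 p.2 : Sm x₀ K))
      (f := fun z => (F z, g z)) Sm.isQuotientMap.continuous.continuousAt
      (hF.continuousAt.prodMk (hg z hz))

end smash

/-! ### Matrices indexed by functions

For a finite set `κ` the matrices over the index set `A → κ` are the operators on the tensor power
`(ℂ^κ)^{⊗ A}`. -/

section matrices

variable {A B C κ : Type} [Fintype A] [DecidableEq A] [Fintype B] [DecidableEq B]
  [Fintype C] [DecidableEq C] [Fintype κ] [DecidableEq κ]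

/-- Operators on `(ℂ^κ)^{⊗ A}`. -/
abbrev Mt (A κ : Type) := Matrix (A → κ) (A → κ) ℂ

/-- The bijection `e : A ≃ B` carries operators on `(ℂ^κ)^{⊗ A}` to operators on
`(ℂ^κ)^{⊗ B}`. -/
def mre (e : A ≃ B) (p : Mt A κ) : Mt B κ := fun a b => p (a ∘ e) (b ∘ e)

/-- The tensor product of operators. -/
def mpr (p : Mt A κ) (q : Mt B κ) : Mt (A ⊕ B) κ :=
  fun a b => p (a ∘ Sum.inl) (b ∘ Sum.inl) * q (a ∘ Sum.inr) (b ∘ Sum.inr)

omit [Fintype A] [DecidableEq A] [Fintype B] [DecidableEq B] [Fintype κ] [DecidableEq κ] in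
theorem mre_conjTranspose (e : A ≃ B) (p : Mt A κ) :
    (mre e p).conjTranspose = mre e p.conjTranspose := rfl

theorem mre_mul (e : A ≃ B) (p q : Mt A κ) : mre e (p * q) = mre e p * mre e q := by
  ext a b
  rw [Matrix.mul_apply]
  unfold mre
  rw [Matrix.mul_apply]
  exact Fintype.sum_equiv (Equiv.arrowCongr e (Equiv.refl _)) _ _ fun c => by
    simp [Function.comp_def]

theorem mre_trace (e : A ≃ B) (p : Mt A κ) : (mre e p).trace = p.trace := by
  unfold Matrix.trace
  exact Fintype.sum_equiv (Equiv.arrowCongr e.symm (Equiv.refl _)) _ _ fun c => rfl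

omit [Fintype A] [DecidableEq A] [Fintype B] [DecidableEq B] [Fintype κ] [DecidableEq κ] in
theorem mpr_conjTranspose (p : Mt A κ) (q : Mt B κ) :
    (mpr p q).conjTranspose = mpr p.conjTranspose q.conjTranspose := by
  ext a b
  show star (p _ _ * q _ _) = star (p _ _) * star (q _ _)
  rw [star_mul, mul_comm]

theorem mpr_mul (p p' : Mt A κ) (q q' : Mt B κ) :
    mpr (p * p') (q * q') = mpr p q * mpr p' q' := by
  ext a b
  rw [Matrix.mul_apply]
  unfold mpr
  rw [Matrix.mul_apply, Matrix.mul_apply, Finset.sum_mul_sum, ← Finset.sum_product',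
    Finset.univ_product_univ]
  refine (Fintype.sum_equiv (Equiv.sumArrowEquivProdArrow A B κ) _ _ fun c => ?_).symm
  show p _ _ * q _ _ * (p' _ _ * q' _ _) = p _ (c ∘ Sum.inl) * p' (c ∘ Sum.inl) _ *
    (q _ (c ∘ Sum.inr) * q' (c ∘ Sum.inr) _)
  ring

theorem mpr_trace (p : Mt A κ) (q : Mt B κ) : (mpr p q).trace = p.trace * q.trace := by
  unfold Matrix.trace
  rw [Finset.sum_mul_sum, ← Finset.sum_product', Finset.univ_product_univ]
  exact Fintype.sum_equiv (Equiv.sumArrowEquivProdArrow A B κ) _ _ fun c => rfl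

/-- The projection to the line spanned by the tensor product of the base vectors `k₀`. -/
def mone (A : Type) [Fintype A] [DecidableEq A] (k₀ : κ) : Mt A κ :=
  Matrix.single (fun _ => k₀) (fun _ => k₀) 1

end matrices

/-! ### Projective spaces -/

/-- The space `P((ℂ²)^{⊗ A})` of lines in `(ℂ²)^{⊗ A}`, as the space of orthogonal projections of
rank one.  With the tensor product `PL.mul` and the stabilisation `p ↦ p ⊗ e` (`e` the base point
of `PL Unit`) the colimit over `A` is a model of the topological monoid (up to homotopy)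
`CP^∞ = K(ℤ, 2)`, the classifying space for complex line bundles with the tensor product. -/
def PL (A : Type) [Fintype A] [DecidableEq A] : Type :=
  {p : Mt A Bool // p.conjTranspose = p ∧ p * p = p ∧ p.trace = 1}

section PL

variable {A B C : Type} [Fintype A] [DecidableEq A] [Fintype B] [DecidableEq B]
  [Fintype C] [DecidableEq C]

instance : TopologicalSpace (PL A) := instTopologicalSpaceSubtype

theorem PL.norm_le_one (p : PL A) (a b : A → Bool) : ‖p.1 a b‖ ≤ 1 := by
  obtain ⟨p, h1, h2, h3⟩ := p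
  show ‖p a b‖ ≤ 1
  have hd : ∀ a, p a a = ((∑ b, ‖p a b‖ ^ 2 : ℝ) : ℂ) := by
    intro a
    conv_lhs => rw [← h2]
    rw [Matrix.mul_apply]
    push_cast
    refine Finset.sum_congr rfl fun b _ => ?_
    have : p b a = (starRingEnd ℂ) (p a b) := by
      conv_lhs => rw [← h1]
      rfl
    rw [this, Complex.mul_conj, Complex.normSq_eq_norm_sq]
    push_cast
    rfl
  have htr : (∑ a, ∑ b, ‖p a b‖ ^ 2 : ℝ) = 1 := by
    have : ((∑ a, ∑ b, ‖p a b‖ ^ 2 : ℝ) : ℂ) = 1 := by
      rw [← h3]
      unfold Matrix.trace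
      push_cast
      refine Finset.sum_congr rfl fun a _ => ?_
      rw [Matrix.diag_apply, hd a]
      push_cast
      rfl
    exact_mod_cast this
  have h4 : ‖p a b‖ ^ 2 ≤ 1 := by
    calc ‖p a b‖ ^ 2 ≤ ∑ b, ‖p a b‖ ^ 2 :=
          Finset.single_le_sum (f := fun b => ‖p a b‖ ^ 2) (fun _ _ => by positivity)
            (Finset.mem_univ b)
      _ ≤ ∑ a, ∑ b, ‖p a b‖ ^ 2 :=
          Finset.single_le_sum (f := fun a => ∑ b, ‖p a b‖ ^ 2) (fun _ _ => by positivity)
            (Finset.mem_univ a)
      _ = 1 := htr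
  nlinarith [norm_nonneg (p a b)]

instance : CompactSpace (PL A) := by
  have hcl : IsClosed {p : Mt A Bool |
      p.conjTranspose = p ∧ p * p = p ∧ p.trace = 1} := by
    refine IsClosed.inter ?_ (IsClosed.inter ?_ ?_)
    · exact isClosed_eq (by fun_prop) continuous_id
    · exact isClosed_eq (by fun_prop) continuous_id
    · exact isClosed_eq (by fun_prop) continuous_const
  have hK : IsCompact {p : Mt A Bool |
      p.conjTranspose = p ∧ p * p = p ∧ p.trace = 1} := by
    have hb : IsCompact (Set.univ.pi fun _ : A → Bool => Set.univ.pi fun _ : A → Bool =>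
        Metric.closedBall (0 : ℂ) 1) :=
      isCompact_univ_pi fun _ => isCompact_univ_pi fun _ => isCompact_closedBall _ _
    refine hb.of_isClosed_subset hcl ?_
    intro p hp a _ b _
    rw [mem_closedBall_zero_iff]
    exact PL.norm_le_one ⟨p, hp⟩ a b
  exact isCompact_iff_compactSpace.1 hK

/-- Reindexing. -/
def PL.map (e : A ≃ B) (p : PL A) : PL B :=
  ⟨mre e p.1, by rw [mre_conjTranspose, p.2.1], by rw [← mre_mul, p.2.2.1],
    by rw [mre_trace, p.2.2.2]⟩

/-- The tensor product of lines. -/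
def PL.mul (p : PL A) (q : PL B) : PL (A ⊕ B) :=
  ⟨mpr p.1 q.1, by rw [mpr_conjTranspose, p.2.1, q.2.1], by rw [← mpr_mul, p.2.2.1, q.2.2.1],
    by rw [mpr_trace, p.2.2.2, q.2.2.2, one_mul]⟩

/-- The line spanned by the tensor product of the base vectors of `ℂ²`. -/
def PL.one (A : Type) [Fintype A] [DecidableEq A] : PL A :=
  ⟨mone A false, by
    unfold mone
    refine ⟨?_, ?_, ?_⟩
    · rw [Matrix.conjTranspose_single, star_one]
    · rw [Matrix.single_mul_single_same, mul_one]
    · rw [Matrix.trace_single_eq_same]⟩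

theorem PL.continuous_map (e : A ≃ B) : Continuous (PL.map e) := by
  refine Continuous.subtype_mk ?_ _
  refine continuous_pi fun a => continuous_pi fun b => ?_
  exact (continuous_apply_apply _ _).comp continuous_subtype_val

theorem PL.continuous_mul : Continuous fun x : PL A × PL B => PL.mul x.1 x.2 := by
  refine Continuous.subtype_mk ?_ _
  refine continuous_pi fun a => continuous_pi fun b => ?_
  exact ((continuous_apply_apply _ _).comp (continuous_subtype_val.comp continuous_fst)).mul
    ((continuous_apply_apply _ _).comp (continuous_subtype_val.comp continuous_snd))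

/-- The tensor product of a family of operators on `ℂ²`. -/
def mtens (f : A → Matrix Bool Bool ℂ) : Mt A Bool := fun a b => ∏ c, f c (a c) (b c)

/-- The tensor product of a family of lines in `ℂ²`. -/
def PL.tens (f : A → {p : Matrix Bool Bool ℂ // p.conjTranspose = p ∧ p * p = p ∧ p.trace = 1}) :
    PL A :=
  ⟨mtens fun c => (f c).1, by
    refine ⟨?_, ?_, ?_⟩
    · ext a b
      show star (∏ c, (f c).1 (b c) (a c)) = ∏ c, (f c).1 (a c) (b c)
      rw [star_prod]
      refine Finset.prod_congr rfl fun c _ => ?_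
      exact congrFun (congrFun (f c).2.1 (a c)) (b c)
    · ext a b
      rw [Matrix.mul_apply]
      show ∑ k : A → Bool, (∏ c, (f c).1 (a c) (k c)) * (∏ c, (f c).1 (k c) (b c)) =
        ∏ c, (f c).1 (a c) (b c)
      have : ∀ c, (f c).1 (a c) (b c) = ∑ k, (f c).1 (a c) k * (f c).1 k (b c) := by
        intro c
        conv_lhs => rw [← (f c).2.2.1]
        rw [Matrix.mul_apply]
      rw [Finset.prod_congr rfl fun c _ => this c, Finset.prod_univ_sum,
        Fintype.piFinset_univ]
      exact Finset.sum_congr rfl fun k _ => Finset.prod_mul_distrib.symm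
    · unfold Matrix.trace
      show ∑ k : A → Bool, ∏ c, (f c).1 (k c) (k c) = 1
      rw [← Fintype.piFinset_univ,
        ← Finset.prod_univ_sum (t := fun _ : A => (Finset.univ : Finset Bool))
          (f := fun c k => (f c).1 k k)]
      exact Finset.prod_eq_one fun c _ => (f c).2.2.2⟩

end PL

/-! ### The smash product of a commutative symmetric ring spectrum with `CP^∞_+` -/

section lift

variable {X : Type} [TopologicalSpace X] {x₀ : X} {K : Type} [TopologicalSpace K]

theorem Sm.exists_rep (y : Sm x₀ K) : ∃ x k, y = Sm.mk x k := by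
  obtain ⟨⟨x, k⟩, rfl⟩ := Quotient.exists_rep y
  exact ⟨x, k, rfl⟩

/-- Functions on the smash product. -/
def Sm.lift {Z : Type*} (F : X → K → Z) (h : ∀ k k', F x₀ k = F x₀ k') : Sm x₀ K → Z :=
  Quotient.lift (fun p => F p.1 p.2) (by
    rintro ⟨x, k⟩ ⟨x', k'⟩ (hh | ⟨h1, h2⟩)
    · rw [hh]
    · have e1 : x = x₀ := h1
      have e2 : x' = x₀ := h2
      show F x k = F x' k'
      rw [e1, e2]
      exact h k k')

theorem Sm.continuous_lift {Z : Type*} [TopologicalSpace Z] (F : X → K → Z)
    (h : ∀ k k', F x₀ k = F x₀ k') (hF : Continuous fun p : X × K => F p.1 p.2) :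
    Continuous (Sm.lift F h : Sm x₀ K → Z) := by
  rw [Sm.isQuotientMap.continuous_iff]
  exact hF

end lift

/-- The spaces `X A ∧ P((ℂ²)^{⊗ A})_+` of `E ∧ Σ^∞ CP^∞_+`. -/
abbrev CSRS.cpX (E : CSRS) (A : Type) [Fintype A] [DecidableEq A] : Type := Sm (E.pt A) (PL A)

/-- The base points of `E ∧ Σ^∞ CP^∞_+`. -/
abbrev CSRS.cpPt (E : CSRS) (A : Type) [Fintype A] [DecidableEq A] : E.cpX A :=
  Sm.mk (E.pt A) (PL.one A)

/-- The functoriality of `E ∧ Σ^∞ CP^∞_+`. -/
def CSRS.cpMap (E : CSRS) {A B : Type} [Fintype A] [DecidableEq A] [Fintype B] [DecidableEq B]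
    (e : A ≃ B) : E.cpX A → E.cpX B :=
  Sm.lift (fun x p => Sm.mk (E.map e x) (PL.map e p)) (by
    intro k k'
    rw [E.map_pt]
    exact Sm.mk_pt _ _)

/-- The product of `E ∧ Σ^∞ CP^∞_+`. -/
def CSRS.cpMul (E : CSRS) {A B : Type} [Fintype A] [DecidableEq A] [Fintype B] [DecidableEq B]
    (x : E.cpX A) (y : E.cpX B) : E.cpX (A ⊕ B) :=
  x.lift (fun x p => y.lift (fun y q => Sm.mk (E.mul x y) (PL.mul p q)) (by
      intro k k'
      rw [E.mul_pt]
      exact Sm.mk_pt _ _)) (by
    intro k k'
    obtain ⟨y, q, rfl⟩ := y.exists_rep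
    show Sm.mk (E.mul (E.pt _) y) _ = Sm.mk (E.mul (E.pt _) y) _
    rw [E.pt_mul]
    exact Sm.mk_pt _ _)

/-- The unit maps of `E ∧ Σ^∞ CP^∞_+`. -/
def CSRS.cpUnit (E : CSRS) (A : Type) [Fintype A] [DecidableEq A] :
    GenLoop A (E.cpX A) (E.cpPt A) :=
  ⟨⟨fun s => Sm.mk (E.unit A s) (PL.one A), by
      exact Sm.isQuotientMap.continuous.comp ((E.unit A).1.continuous.prodMk continuous_const)⟩, by
    intro s hs
    show Sm.mk ((E.unit A).1 s) _ = _
    rw [(E.unit A).2 s hs]⟩

/-- The commutative symmetric ring spectrum `E ∧ Σ^∞ CP^∞_+`, with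
`A ↦ X A ∧ P((ℂ²)^{⊗ A})_+`. -/
def CSRS.cp (E : CSRS) : CSRS where
  X A := E.cpX A
  pt A := E.cpPt A
  closed_pt A _ _ := by
    have h := (Sm.isProperMap (K := PL A) (E.closed_pt A)).isClosedMap
      ({E.pt A} ×ˢ Set.univ) ((E.closed_pt A).prod isClosed_univ)
    convert h using 1
    ext y
    constructor
    · rintro rfl
      exact ⟨(E.pt A, PL.one A), ⟨rfl, trivial⟩, rfl⟩
    · rintro ⟨⟨x, k⟩, ⟨hx, -⟩, rfl⟩
      have hx' : x = E.pt A := hx
      show Sm.mk x k = Sm.mk (E.pt A) (PL.one A)
      rw [hx']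
      exact Sm.mk_pt _ _
  map e := E.cpMap e
  continuous_map e := by
    refine Sm.continuous_lift _ _ ?_
    exact Sm.isQuotientMap.continuous.comp
      (((E.continuous_map e).comp continuous_fst).prodMk
        ((PL.continuous_map e).comp continuous_snd))
  map_pt e := by
    show Sm.mk (E.map e (E.pt _)) _ = _
    rw [E.map_pt]
    exact Sm.mk_pt _ _
  map_refl x := by
    obtain ⟨x, k, rfl⟩ := x.exists_rep
    show Sm.mk (E.map (Equiv.refl _) x) (PL.map (Equiv.refl _) k) = _
    rw [E.map_refl]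
    rfl
  map_trans e f x := by
    obtain ⟨x, k, rfl⟩ := x.exists_rep
    show Sm.mk (E.map _ x) (PL.map _ k) = Sm.mk (E.map f (E.map e x)) (PL.map f (PL.map e k))
    rw [E.map_trans]
    rfl
  mul x y := E.cpMul x y
  continuous_mul := by
    intro A B _ _ _ _
    have h := (Sm.isProperMap (K := PL A) (E.closed_pt A)).prodMap
      (Sm.isProperMap (K := PL B) (E.closed_pt B))
    have hq : IsQuotientMap (Prod.map
        (fun p : E.X A × PL A => (Sm.mk p.1 p.2 : Sm (E.pt A) (PL A)))
        (fun p : E.X B × PL B => (Sm.mk p.1 p.2 : Sm (E.pt B) (PL B)))) :=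
      h.isClosedMap.isQuotientMap h.continuous
        (Sm.isQuotientMap.surjective.prodMap Sm.isQuotientMap.surjective)
    rw [hq.continuous_iff]
    refine Sm.isQuotientMap.continuous.comp (Continuous.prodMk ?_ ?_)
    · exact E.continuous_mul.comp ((continuous_fst.comp continuous_fst).prodMk
        (continuous_fst.comp continuous_snd))
    · exact PL.continuous_mul.comp ((continuous_snd.comp continuous_fst).prodMk
        (continuous_snd.comp continuous_snd))
  pt_mul y := by
    obtain ⟨y, q, rfl⟩ := y.exists_rep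
    show Sm.mk (E.mul (E.pt _) y) _ = _
    rw [E.pt_mul]
    exact Sm.mk_pt _ _
  mul_pt x := by
    obtain ⟨x, q, rfl⟩ := x.exists_rep
    show Sm.mk (E.mul x (E.pt _)) _ = _
    rw [E.mul_pt]
    exact Sm.mk_pt _ _
  map_mul e f x y := by
    obtain ⟨x, p, rfl⟩ := x.exists_rep
    obtain ⟨y, q, rfl⟩ := y.exists_rep
    show Sm.mk (E.map _ (E.mul x y)) _ = Sm.mk (E.mul (E.map e x) (E.map f y)) _
    rw [E.map_mul]
    rfl
  mul_assoc x y z := by
    obtain ⟨x, p, rfl⟩ := x.exists_rep
    obtain ⟨y, q, rfl⟩ := y.exists_rep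
    obtain ⟨z, r, rfl⟩ := z.exists_rep
    show Sm.mk (E.map _ (E.mul (E.mul x y) z)) _ = Sm.mk (E.mul x (E.mul y z)) _
    rw [E.mul_assoc]
    congr 1
    apply Subtype.ext
    ext a b
    exact _root_.mul_assoc _ _ _
  mul_comm x y := by
    obtain ⟨x, p, rfl⟩ := x.exists_rep
    obtain ⟨y, q, rfl⟩ := y.exists_rep
    show Sm.mk (E.map _ (E.mul x y)) _ = Sm.mk (E.mul y x) _
    rw [E.mul_comm]
    congr 1
    apply Subtype.ext
    ext a b
    exact _root_.mul_comm _ _
  unit A := E.cpUnit A
  map_unit e s := by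
    show Sm.mk (E.map e (E.unit _ s)) _ = Sm.mk (E.unit _ _) _
    rw [E.map_unit]
    congr 1
    apply Subtype.ext
    ext a b
    show Matrix.single _ _ _ _ _ = Matrix.single _ _ _ _ _
    rw [Matrix.single_apply, Matrix.single_apply]
    congr 1
    have : ∀ c : _ → Bool, ((fun _ => false) = c ∘ e) = ((fun _ => false) = c) := by
      intro c
      apply propext
      constructor
      · intro h
        funext i
        have := congrFun h (e.symm i)
        simpa using this
      · rintro rfl
        rfl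
    rw [this, this]
  unit_mul := by
    intro A B _ _ _ _ s t
    show Sm.mk (E.mul (E.unit _ s) (E.unit _ t)) _ = Sm.mk (E.unit _ _) _
    rw [E.unit_mul]
    congr 1
    apply Subtype.ext
    ext a b
    show Matrix.single _ _ _ _ _ * Matrix.single _ _ _ _ _ = Matrix.single _ _ _ _ _
    rw [Matrix.single_apply, Matrix.single_apply, Matrix.single_apply]
    have : ∀ c : A ⊕ B → Bool, ((fun _ => false) = c) ↔ ((fun _ => false) = c ∘ Sum.inl ∧
        (fun _ => false) = c ∘ Sum.inr) := by
      intro c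
      constructor
      · rintro rfl
        exact ⟨rfl, rfl⟩
      · rintro ⟨h1, h2⟩
        funext i
        rcases i with i | i
        · exact congrFun h1 i
        · exact congrFun h2 i
    have ha := this a
    have hb := this b
    split_ifs <;> first | (simp; done) | (exfalso; tauto)
  one_mul x := by
    obtain ⟨x, p, rfl⟩ := x.exists_rep
    show Sm.mk (E.map _ (E.mul (E.unit Empty _) x)) _ = Sm.mk x p
    rw [E.one_mul]
    congr 1
    apply Subtype.ext
    ext a b
    show Matrix.single _ _ _ _ _ * p.1 _ _ = p.1 a b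
    rw [Matrix.single_apply, if_pos ⟨Subsingleton.elim _ _, Subsingleton.elim _ _⟩,
      _root_.one_mul]
    rfl

/-! ### The Bott class and `K(1)`-acyclicity at the prime 2 -/

/-- The point `u = 2 s - 1` of `[-1, 1]^3`. -/
def ctr (s : Fin 3 → I) : Fin 3 → ℝ := fun i => 2 * (s i : ℝ) - 1

/-- The sup norm `|2 s - 1| ∈ I`; it is `1` exactly on the boundary of the cube. -/
def rad (s : Fin 3 → I) : I :=
  ⟨‖ctr s‖, norm_nonneg _, by
    rw [pi_norm_le_iff_of_nonneg zero_le_one]
    intro i
    rw [Real.norm_eq_abs, abs_le]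
    unfold ctr
    constructor
    · linarith [(s i).2.1]
    · linarith [(s i).2.2]⟩

/-- The Euclidean norm on `ℝ³`. -/
def nrm (u : Fin 3 → ℝ) : ℝ := Real.sqrt (u 0 ^ 2 + u 1 ^ 2 + u 2 ^ 2)

/-- The matrix `(1 + (u₀ σ₁ + u₁ σ₂ + u₂ σ₃) / |u|) / 2` for `u ≠ 0` (`σ` the Pauli matrices), the
orthogonal projection to the line in `ℂ²` which corresponds to the point `u / |u|` of the
two-sphere `CP^1`; rows and columns are indexed by `false`, `true`. -/
def lnm (u : Fin 3 → ℝ) : Matrix Bool Bool ℂ := fun a b =>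
  if u = 0 then (if a = false ∧ b = false then 1 else 0) else
    match a, b with
    | false, false => (1 + u 2 / nrm u) / 2
    | false, true => (u 0 - Complex.I * u 1) / (2 * nrm u)
    | true, false => (u 0 + Complex.I * u 1) / (2 * nrm u)
    | true, true => (1 - u 2 / nrm u) / 2

theorem nrm_pos {u : Fin 3 → ℝ} (hu : u ≠ 0) : 0 < nrm u := by
  unfold nrm
  apply Real.sqrt_pos.2
  by_contra h
  apply hu
  have h0 : u 0 ^ 2 = 0 := by nlinarith [sq_nonneg (u 0), sq_nonneg (u 1), sq_nonneg (u 2)]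
  have h1 : u 1 ^ 2 = 0 := by nlinarith [sq_nonneg (u 0), sq_nonneg (u 1), sq_nonneg (u 2)]
  have h2 : u 2 ^ 2 = 0 := by nlinarith [sq_nonneg (u 0), sq_nonneg (u 1), sq_nonneg (u 2)]
  funext i
  fin_cases i
  · exact pow_eq_zero_iff (two_ne_zero) |>.1 h0
  · exact pow_eq_zero_iff (two_ne_zero) |>.1 h1
  · exact pow_eq_zero_iff (two_ne_zero) |>.1 h2

theorem nrm_sq (u : Fin 3 → ℝ) : nrm u ^ 2 = u 0 ^ 2 + u 1 ^ 2 + u 2 ^ 2 := by
  unfold nrm
  exact Real.sq_sqrt (by positivity)

/-- The line (rank one projection) of `u`. -/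
def ln (u : Fin 3 → ℝ) :
    {p : Matrix Bool Bool ℂ // p.conjTranspose = p ∧ p * p = p ∧ p.trace = 1} :=
  ⟨lnm u, by
    by_cases hu : u = 0
    · refine ⟨?_, ?_, ?_⟩
      · ext a b
        rw [Matrix.conjTranspose_apply]
        unfold lnm
        rw [if_pos hu, if_pos hu]
        cases a <;> cases b <;> simp
      · ext a b
        rw [Matrix.mul_apply, Fintype.sum_bool]
        unfold lnm
        simp only [if_pos hu]
        cases a <;> cases b <;> simp
      · rw [Matrix.trace, Fintype.sum_bool, Matrix.diag_apply, Matrix.diag_apply]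
        unfold lnm
        simp only [if_pos hu]
        simp
    · have hn : (nrm u : ℂ) ≠ 0 := by exact_mod_cast (nrm_pos hu).ne'
      have hs : (nrm u : ℂ) ^ 2 = (u 0 : ℂ) ^ 2 + (u 1 : ℂ) ^ 2 + (u 2 : ℂ) ^ 2 := by
        exact_mod_cast nrm_sq u
      refine ⟨?_, ?_, ?_⟩
      · ext a b
        rw [Matrix.conjTranspose_apply]
        unfold lnm
        rw [if_neg hu, if_neg hu]
        cases a <;> cases b <;> simp [Complex.conj_ofReal] <;> ring
      · have hI : Complex.I ^ 2 = -1 := Complex.I_sq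
        ext a b
        rw [Matrix.mul_apply, Fintype.sum_bool]
        unfold lnm
        simp only [if_neg hu]
        cases a <;> cases b <;> simp only [] <;> field_simp <;>
          first
            | linear_combination ((-1 : ℂ)) * hs + (-(u 1 : ℂ) ^ 2) * hI
            | linear_combination ((1 : ℂ)) * hs + (-(u 1 : ℂ) ^ 2) * hI
            | linear_combination (0 : ℂ) * hs
      · rw [Matrix.trace, Fintype.sum_bool, Matrix.diag_apply, Matrix.diag_apply]
        unfold lnm
        simp only [if_neg hu]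
        ring⟩

theorem continuousAt_lnm {u : Fin 3 → ℝ} (hu : u ≠ 0) (a b : Bool) :
    ContinuousAt (fun u => lnm u a b) u := by
  have hn : (nrm u : ℂ) ≠ 0 := by exact_mod_cast (nrm_pos hu).ne'
  have hnc : Continuous fun u : Fin 3 → ℝ => (nrm u : ℂ) := by
    unfold nrm
    fun_prop
  have hc : ∀ i, Continuous fun u : Fin 3 → ℝ => (u i : ℂ) := fun i => by fun_prop
  have hev : ∀ᶠ v in 𝓝 u, v ≠ 0 := isOpen_ne.mem_nhds hu
  cases a <;> cases b
  · refine ContinuousAt.congr (f := fun v => (1 + (v 2 : ℂ) / nrm v) / 2) ?_ ?_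
    · exact ((continuousAt_const.add ((hc 2).continuousAt.div hnc.continuousAt hn)).div_const _)
    · filter_upwards [hev] with v hv
      unfold lnm
      rw [if_neg hv]
  · refine ContinuousAt.congr
      (f := fun v => ((v 0 : ℂ) - Complex.I * v 1) / (2 * nrm v)) ?_ ?_
    · exact (((hc 0).continuousAt.sub (continuousAt_const.mul (hc 1).continuousAt)).div
        (continuousAt_const.mul hnc.continuousAt) (mul_ne_zero two_ne_zero hn))
    · filter_upwards [hev] with v hv
      unfold lnm
      rw [if_neg hv]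
  · refine ContinuousAt.congr
      (f := fun v => ((v 0 : ℂ) + Complex.I * v 1) / (2 * nrm v)) ?_ ?_
    · exact (((hc 0).continuousAt.add (continuousAt_const.mul (hc 1).continuousAt)).div
        (continuousAt_const.mul hnc.continuousAt) (mul_ne_zero two_ne_zero hn))
    · filter_upwards [hev] with v hv
      unfold lnm
      rw [if_neg hv]
  · refine ContinuousAt.congr (f := fun v => (1 - (v 2 : ℂ) / nrm v) / 2) ?_ ?_
    · exact ((continuousAt_const.sub ((hc 2).continuousAt.div hnc.continuousAt hn)).div_const _)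
    · filter_upwards [hev] with v hv
      unfold lnm
      rw [if_neg hv]

theorem continuous_ctr : Continuous ctr := by
  unfold ctr
  fun_prop

theorem continuous_rad : Continuous rad := by
  refine Continuous.subtype_mk ?_ _
  exact continuous_norm.comp continuous_ctr

theorem rad_eq_zero {s : Fin 3 → I} (h : ctr s = 0) : rad s = 0 := by
  apply Subtype.ext
  show ‖ctr s‖ = 0
  rw [h, norm_zero]

theorem rad_bdry {s : Fin 3 → I} (h : s ∈ Cube.boundary (Fin 3)) : rad s = 1 := by
  obtain ⟨i, hi⟩ := h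
  apply Subtype.ext
  apply le_antisymm (rad s).2.2
  show (1 : ℝ) ≤ ‖ctr s‖
  have h1 : ‖ctr s i‖ = 1 := by
    unfold ctr
    rcases hi with hi | hi
    · rw [hi]
      norm_num
    · rw [hi]
      norm_num
  rw [← h1]
  exact norm_le_pi_norm (ctr s) i

namespace CSRS

/-- The `C`-fold exterior power of the Bott class `b ∈ π_2(Σ^∞ CP^∞_+)`, as a map
`S^(C × 3) = (S^3)^{∧ C} → X C ∧ P((ℂ²)^{⊗ C})_+`.  For one factor it is
`S^3 → S^1 ∧ CP^1_+`, `s ↦ (|u|, u / |u|)`, `u = 2 s - 1`: the sphere `S^3` is the unreduced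
suspension of `CP^1 = S^2` and the map identifies its two poles.  So its component in
`π_2(Σ^∞ S^0)` is zero and its component in `π_2(Σ^∞ CP^1) = ℤ` is a generator; this is the
generator `b` of the reduced group `π_2(Σ^∞ CP^∞) = ℤ`. -/
def bott (E : CSRS) (C : Type) [Fintype C] [DecidableEq C] : E.cp.L (C × Fin 3) C :=
  ⟨⟨fun s => Sm.mk (E.unit C fun c => rad fun i => s (c, i))
      (PL.tens fun c => ln (ctr fun i => s (c, i))), by
    refine Sm.continuous_mk (F := fun s : C × Fin 3 → I => E.unit C fun c => rad fun i => s (c, i))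
      (g := fun s : C × Fin 3 → I => PL.tens fun c => ln (ctr fun i => s (c, i))) ?_ ?_
    · refine (E.unit C).1.continuous.comp (continuous_pi fun c => continuous_rad.comp ?_)
      fun_prop
    · intro s hs
      have hs' : ∀ c, (ctr fun i => s (c, i)) ≠ 0 := by
        intro c hc
        apply hs
        exact (E.unit C).2 _ ⟨c, Or.inl (rad_eq_zero hc)⟩
      refine Topology.IsInducing.subtypeVal.continuousAt_iff.2 ?_
      refine continuousAt_pi.2 fun a => continuousAt_pi.2 fun b => ?_
      show ContinuousAt (fun s : C × Fin 3 → I => ∏ c, lnm (ctr fun i => s (c, i)) (a c) (b c)) s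
      refine tendsto_finsetProd _ fun c _ => ?_
      refine ContinuousAt.comp (x := s) (g := fun u => lnm u (a c) (b c))
        (f := fun s : C × Fin 3 → I => ctr fun i => s (c, i)) (continuousAt_lnm (hs' c) _ _) ?_
      refine (continuous_ctr.comp ?_).continuousAt
      fun_prop⟩, by
    rintro s ⟨⟨c, i⟩, hi⟩
    show Sm.mk (E.unit C fun c => rad fun i => s (c, i)) _ = Sm.mk (E.pt C) _
    have : E.unit C (fun c => rad fun i => s (c, i)) = E.pt C :=
      (E.unit C).2 _ ⟨c, Or.inr (rad_bdry ⟨i, hi⟩)⟩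
    rw [this]
    exact Sm.mk_pt _ _⟩

/-- `K(1) ∧ E = 0` for the first Morava K-theory `K(1)` at the prime `2`.

By Snaith's theorem (V. Snaith, *Localized stable homotopy of some classifying spaces*, 1981)
complex K-theory is `KU = Σ^∞ CP^∞_+ [b⁻¹]`, the mapping telescope of the multiplication by the Bott
class `b`, and `K(1) = KU / 2` at the prime `2`.  Hence `K(1) ∧ E = 0` if and only if the
multiplication by `2` is bijective on
`π_* (KU ∧ E) = colim (π_* (E ∧ CP^∞_+) → π_{*+2} (E ∧ CP^∞_+) → ...)` (maps: product with `b`),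
where `π_*` are stable homotopy groups.  (These are the naive homotopy groups of the prespectrum
`E.cp`: the colimit over `A` of the groups `π_{k+A}(X A ∧ P((ℂ²)^{⊗ A})_+)` is the colimit over two
independent indices of `π_{k+A}(X A ∧ P((ℂ²)^{⊗ B})_+)`, that is
`colim_B π_k (E ∧ P((ℂ²)^{⊗ B})_+) = π_k (E ∧ CP^∞_+)`; here it is used only that `E` is semistable
and levelwise well-pointed.)  A class in this colimit is represented by some
`f : S^N → X A ∧ P((ℂ²)^{⊗ A})_+`; its `j`-fold product with `b` is `prod f (bott (Fin j))`.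
Injectivity: if `2 f = 0` stably, then `b^j f = 0` stably for some `j`.
Surjectivity: for every `f` there are `j` and `g` with `b^j f = 2 g` stably. -/
def K1Acyclic (E : CSRS) : Prop :=
  ∀ (N A : Type) [Fintype N] [DecidableEq N] [Nonempty N] [Fintype A] [DecidableEq A]
    (f : E.cp.L N A),
    ((∃ g : E.cp.L N A, cls g = cls f * cls f ∧ StNull g) →
      ∃ j : ℕ, StNull (prod f (E.bott (Fin j)))) ∧
    ∃ (j n : ℕ) (g : E.cp.P ((N ⊕ Fin j × Fin 3) ⊕ Fin n) ((A ⊕ Fin j) ⊕ Fin n)),
      g * g = cls (st (Fin n) (prod f (E.bott (Fin j))))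

end CSRS

end Pool.Agent.Tate
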