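import Pool.Agent.Lib.Tate.Defs

/-!
# MP_071d69_gt: the Tate construction

Definitions for the statement of the theorem, part 2.
-/

set_option linter.unusedSectionVars false

open Topology unitInterval
open scoped Topology.Homotopy

noncomputable section

namespace Pool.Agent.Tate

/-! ## 3. Mapping telescopes -/

section Tel

variable (Y : ℕ → Type) [∀ m, TopologicalSpace (Y m)] (φ : ∀ m, Y m → Y (m + 1)) (y₀ : ∀ m, Y m)

/-- The gluing relation of the reduced mapping telescope. -/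
inductive TelRel : (Σ m, I × Y m) → (Σ m, I × Y m) → Prop
  | glue (m : ℕ) (y : Y m) : TelRel ⟨m, (1, y)⟩ ⟨m + 1, (0, φ m y)⟩
  | base (m : ℕ) (t : I) : TelRel ⟨m, (t, y₀ m)⟩ ⟨0, (0, y₀ 0)⟩

/-- The reduced mapping telescope of `Y 0 → Y 1 → Y 2 → ...` (pointed spaces, base points `y₀`):
the quotient of the disjoint union of the cylinders `I × Y m` which identifies the end `(1, y)` of
the `m`-th cylinder with the beginning `(0, φ y)` of the next one, and all base points. -/
def Tel : Type := Quot (TelRel Y φ y₀)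

instance : TopologicalSpace (Tel Y φ y₀) := instTopologicalSpaceQuot

variable {Y φ y₀}

/-- The point of the telescope given by `(t, y)` in the `m`-th cylinder. -/
def Tel.mk (m : ℕ) (t : I) (y : Y m) : Tel Y φ y₀ := Quot.mk _ ⟨m, (t, y)⟩

variable (Y φ y₀) in
/-- The base point. -/
def Tel.base : Tel Y φ y₀ := Tel.mk 0 0 (y₀ 0)

theorem Tel.glue (m : ℕ) (y : Y m) : (Tel.mk m 1 y : Tel Y φ y₀) = Tel.mk (m + 1) 0 (φ m y) :=
  Quot.sound (TelRel.glue m y)

theorem Tel.mk_base (m : ℕ) (t : I) : (Tel.mk m t (y₀ m) : Tel Y φ y₀) = Tel.base Y φ y₀ :=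
  Quot.sound (TelRel.base m t)

theorem Tel.isQuotientMap :
    IsQuotientMap (Quot.mk (TelRel Y φ y₀) : (Σ m, I × Y m) → Tel Y φ y₀) :=
  isQuotientMap_quot_mk

theorem Tel.ind {motive : Tel Y φ y₀ → Prop} (h : ∀ m t y, motive (Tel.mk m t y))
    (x : Tel Y φ y₀) : motive x := by
  induction x using Quot.ind with
  | mk a => exact h a.1 a.2.1 a.2.2

variable {Y' : ℕ → Type} [∀ m, TopologicalSpace (Y' m)] {φ' : ∀ m, Y' m → Y' (m + 1)}
  {y₀' : ∀ m, Y' m} {K : Type*}

/-- Maps of telescopes, depending on a parameter `k`. -/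
def Tel.lift (ψ : ∀ m, Y m → K → Y' m) (h : ∀ m y k, φ' m (ψ m y k) = ψ (m + 1) (φ m y) k)
    (h₀ : ∀ m k, ψ m (y₀ m) k = y₀' m) (x : Tel Y φ y₀) (k : K) : Tel Y' φ' y₀' :=
  Quot.lift (fun a : Σ m, I × Y m => (Tel.mk a.1 a.2.1 (ψ a.1 a.2.2 k) : Tel Y' φ' y₀')) (by
    rintro _ _ (⟨m, y⟩ | ⟨m, t⟩)
    · show (Tel.mk m 1 (ψ m y k) : Tel Y' φ' y₀') = Tel.mk (m + 1) 0 (ψ (m + 1) (φ m y) k)
      rw [Tel.glue, h]
    · show (Tel.mk m t (ψ m (y₀ m) k) : Tel Y' φ' y₀') = Tel.mk 0 0 (ψ 0 (y₀ 0) k)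
      rw [h₀, h₀, Tel.mk_base]
      rfl) x

theorem Tel.continuous_lift [TopologicalSpace K] [LocallyCompactSpace K]
    (ψ : ∀ m, Y m → K → Y' m)
    (h : ∀ m y k, φ' m (ψ m y k) = ψ (m + 1) (φ m y) k)
    (h₀ : ∀ m k, ψ m (y₀ m) k = y₀' m) (hψ : ∀ m, Continuous fun p : Y m × K => ψ m p.1 p.2) :
    Continuous fun p : Tel Y φ y₀ × K => (Tel.lift ψ h h₀ p.1 p.2 : Tel Y' φ' y₀') := by
  refine Tel.isQuotientMap.continuous_lift_prod_left ?_
  have hq : Continuous (Quot.mk (TelRel Y' φ' y₀') : (Σ m, I × Y' m) → Tel Y' φ' y₀') :=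
    Tel.isQuotientMap.continuous
  have h1 : Continuous fun p : (Σ m, I × Y m) × K =>
      (⟨p.1.1, (p.1.2.1, ψ p.1.1 p.1.2.2 p.2)⟩ : Σ m, I × Y' m) := by
    have e : (Σ m, (I × Y m)) × K ≃ₜ Σ m, ((I × Y m) × K) := Homeomorph.sigmaProdDistrib
    rw [← (Homeomorph.sigmaProdDistrib (ι := ℕ) (X := fun m => I × Y m)
      (Y := K)).symm.comp_continuous_iff']
    refine continuous_sigma fun m => ?_
    refine continuous_sigmaMk.comp ?_
    exact (continuous_fst.comp continuous_fst).prodMk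
      ((hψ m).comp ((continuous_snd.comp continuous_fst).prodMk continuous_snd))
  exact hq.comp h1

end Tel

/-! ## 4. The fibrant replacement `QR` -/

namespace CSRS

variable {E : CSRS}
variable {N M A B C D A' B' : Type} [Fintype A] [DecidableEq A] [Fintype B] [DecidableEq B]
  [Fintype C] [DecidableEq C] [Fintype D] [DecidableEq D] [Fintype A'] [DecidableEq A']
  [Fintype B'] [DecidableEq B']

/-- The bijection `(A ⊕ B) ⊕ C ≃ (A ⊕ C) ⊕ B`. -/
def rc (A B C : Type) : (A ⊕ B) ⊕ C ≃ (A ⊕ C) ⊕ B :=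
  ((Equiv.sumAssoc A B C).trans (Equiv.sumCongr (Equiv.refl A) (Equiv.sumComm B C))).trans
    (Equiv.sumAssoc A C B).symm

theorem map_symm_map (e : A ≃ B) (x : E.X A) : E.map e.symm (E.map e x) = x := by
  rw [← E.map_trans, Equiv.self_trans_symm, E.map_refl]

theorem map_map_symm (e : A ≃ B) (x : E.X B) : E.map e (E.map e.symm x) = x := by
  rw [← E.map_trans, Equiv.symm_trans_self, E.map_refl]

theorem map_rc (a : E.X A) (b : E.X B) (c : E.X C) :
    E.map (rc A B C) (E.mul (E.mul a b) c) = E.mul (E.mul a c) b := by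
  unfold rc
  rw [E.map_trans, E.map_trans, E.mul_assoc, E.map_mul, E.map_refl, E.mul_comm, ← E.mul_assoc,
    map_symm_map]

/-- The bijection `(B ⊕ Fin m) ⊕ Fin 1 ≃ B ⊕ Fin (m + 1)`. -/
def upE (B : Type) (m : ℕ) : (B ⊕ Fin m) ⊕ Fin 1 ≃ B ⊕ Fin (m + 1) :=
  (Equiv.sumAssoc B (Fin m) (Fin 1)).trans (Equiv.sumCongr (Equiv.refl B) finSumFinEquiv)

/-- The adjoint structure map `Ω^m X (B ⊕ m) → Ω^(m+1) X (B ⊕ (m+1))`. -/
def up (B : Type) [Fintype B] [DecidableEq B] (m : ℕ) (g : E.L (Fin m) (B ⊕ Fin m)) :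
    E.L (Fin (m + 1)) (B ⊕ Fin (m + 1)) :=
  ⟨⟨fun s => push (upE B m) (st (Fin 1) g) (s ∘ finSumFinEquiv), by
      exact (push (upE B m) (st (Fin 1) g)).1.continuous.comp (by fun_prop)⟩, by
    rintro s ⟨i, hi⟩
    exact (push (upE B m) (st (Fin 1) g)).2 _ ⟨finSumFinEquiv.symm i, by
      rwa [Function.comp_apply, Equiv.apply_symm_apply]⟩⟩

theorem up_apply (m : ℕ) (g : E.L (Fin m) (B ⊕ Fin m)) (s : Fin (m + 1) → I) :
    up B m g s = E.map (upE B m)
      (E.mul (g fun i => s (finSumFinEquiv (Sum.inl i)))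
        (E.unit (Fin 1) fun i => s (finSumFinEquiv (Sum.inr i)))) := rfl

variable (E)

/-- The `B`-th space `QE(B) = hocolim_m Ω^m X (B ⊕ Fin m)` of the (naive) fibrant replacement of
`E`, as a reduced mapping telescope. -/
def Q (B : Type) [Fintype B] [DecidableEq B] : Type :=
  Tel (fun m => E.L (Fin m) (B ⊕ Fin m)) (fun m => up B m) (fun _ => GenLoop.const)

instance : TopologicalSpace (E.Q B) :=
  instTopologicalSpaceTel (fun m => E.L (Fin m) (B ⊕ Fin m)) (fun m => up B m) (fun _ => GenLoop.const)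

/-- The base point of `QE(B)`. -/
def Qpt (B : Type) [Fintype B] [DecidableEq B] : E.Q B := Tel.base _ _ _

variable {E}

/-- The point of `QE(B)` given by `(r, g)` in the `m`-th cylinder. -/
def Qmk (m : ℕ) (r : I) (g : E.L (Fin m) (B ⊕ Fin m)) : E.Q B :=
  Tel.mk (Y := fun m => E.L (Fin m) (B ⊕ Fin m)) m r g

theorem Qmk_base (m : ℕ) (r : I) : (Qmk m r GenLoop.const : E.Q B) = E.Qpt B :=
  Tel.mk_base m r

theorem Qind {motive : E.Q B → Prop} (h : ∀ m r g, motive (Qmk m r g)) (x : E.Q B) : motive x :=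
  Tel.ind h x

/-- Functoriality of `QE` in bijections, on the `m`-th stage. -/
def Qmap' (e : B ≃ B') (m : ℕ) (g : E.L (Fin m) (B ⊕ Fin m)) : E.L (Fin m) (B' ⊕ Fin m) :=
  push (Equiv.sumCongr e (Equiv.refl _)) g

/-- The product of a point of the `m`-th stage of `QE(B)` with the point of `X D` given by
`t ∈ S^D`. -/
def Qact' (D : Type) [Fintype D] [DecidableEq D] (m : ℕ) (g : E.L (Fin m) (B ⊕ Fin m))
    (t : D → I) : E.L (Fin m) ((B ⊕ D) ⊕ Fin m) :=
  ⟨⟨fun s => E.map (rc B (Fin m) D) (E.mul (g s) (E.unit D t)), by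
    exact (E.continuous_map _).comp (E.continuous_mul.comp
      (f := fun s => (g.1 s, E.unit D t)) (g.1.continuous.prodMk continuous_const))⟩, by
    intro s hs
    show E.map _ (E.mul (g.1 s) _) = _
    rw [g.2 s hs, E.pt_mul, E.map_pt]⟩

theorem up_Qmap' (e : B ≃ B') (m : ℕ) (g : E.L (Fin m) (B ⊕ Fin m)) :
    up B' m (Qmap' e m g) = Qmap' e (m + 1) (up B m g) := by
  apply GenLoop.ext
  intro s
  rw [up_apply]
  show E.map _ (E.mul (E.map _ _) _) = E.map _ (up B m g s)
  rw [up_apply, ← E.map_trans]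
  have h := E.map_mul (Equiv.sumCongr e (Equiv.refl (Fin m))) (Equiv.refl (Fin 1))
    (g fun i => s (finSumFinEquiv (Sum.inl i)))
    (E.unit (Fin 1) fun i => s (finSumFinEquiv (Sum.inr i)))
  rw [E.map_refl] at h
  rw [← h, ← E.map_trans]
  refine congrArg (fun e => E.map e _) (Equiv.ext fun x => ?_)
  rcases x with (x | x) | x <;> rfl

theorem up_Qact' (m : ℕ) (g : E.L (Fin m) (B ⊕ Fin m)) (t : D → I) :
    up (B ⊕ D) m (Qact' D m g t) = Qact' D (m + 1) (up B m g) t := by
  apply GenLoop.ext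
  intro s
  rw [up_apply]
  show E.map _ (E.mul (E.map _ (E.mul _ _)) _) = E.map _ (E.mul (up B m g s) _)
  rw [up_apply]
  set a := g fun i => s (finSumFinEquiv (Sum.inl i))
  set b := E.unit (Fin 1) fun i => s (finSumFinEquiv (Sum.inr i))
  set u := E.unit D t
  have h1 := E.map_mul (rc B (Fin m) D) (Equiv.refl (Fin 1)) (E.mul a u) b
  have h2 := E.map_mul (upE B m) (Equiv.refl D) (E.mul a b) u
  rw [E.map_refl] at h1 h2
  rw [← h1, ← h2, ← E.map_trans, ← E.map_trans, ← map_rc a b u, ← E.map_trans]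
  refine congrArg (fun e => E.map e _) (Equiv.ext fun x => ?_)
  rcases x with ((x | x) | x) | x <;> rfl

/-- Functoriality of `QE` in bijections. -/
def Qmap (e : B ≃ B') (x : E.Q B) : E.Q B' :=
  Tel.lift (K := Unit) (fun m g _ => Qmap' e m g) (fun m g _ => up_Qmap' e m g) (by
    intro m _
    apply GenLoop.ext
    intro s
    exact E.map_pt _) x ()

/-- The action of the sphere `S^D` on `QE`: a map `QE(B) ∧ S^D → QE(B ⊕ D)`. -/
def Qact (D : Type) [Fintype D] [DecidableEq D] (x : E.Q B) (t : D → I) : E.Q (B ⊕ D) :=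
  Tel.lift (fun m g t => Qact' D m g t) (fun m g t => up_Qact' m g t) (by
    intro m t
    apply GenLoop.ext
    intro s
    show E.map _ (E.mul (E.pt _) _) = E.pt _
    rw [E.pt_mul, E.map_pt]) x t

theorem continuous_Qmap (e : B ≃ B') : Continuous (Qmap e : E.Q B → E.Q B') := by
  have h := Tel.continuous_lift (K := Unit) (φ := fun m => up (E := E) B m)
    (φ' := fun m => up (E := E) B' m) (y₀ := fun _ => GenLoop.const)
    (y₀' := fun _ => GenLoop.const) (fun m g _ => Qmap' e m g)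
    (fun m g _ => up_Qmap' e m g) (by
      intro m _
      apply GenLoop.ext
      intro s
      exact E.map_pt _) (by
      intro m
      refine Continuous.comp (g := fun g => Qmap' e m g) ?_ continuous_fst
      refine Continuous.subtype_mk ?_ _
      exact (ContinuousMap.continuous_postcomp ⟨_, E.continuous_map _⟩).comp
        continuous_subtype_val)
  exact h.comp (Continuous.prodMk continuous_id continuous_const)

theorem continuous_Qact' (m : ℕ) :
    Continuous fun p : E.L (Fin m) (B ⊕ Fin m) × (D → I) => Qact' D m p.1 p.2 := by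
  refine Continuous.subtype_mk ?_ _
  refine ContinuousMap.continuous_of_continuous_uncurry _ ?_
  show Continuous fun q : (E.L (Fin m) (B ⊕ Fin m) × (D → I)) × (Fin m → I) =>
    E.map (rc B (Fin m) D) (E.mul (q.1.1 q.2) (E.unit D q.1.2))
  refine (E.continuous_map _).comp (E.continuous_mul.comp (Continuous.prodMk ?_ ?_))
  · exact continuous_eval.comp
      ((continuous_fst.comp continuous_fst).prodMk continuous_snd)
  · exact (E.unit D).1.continuous.comp (continuous_snd.comp continuous_fst)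

theorem continuous_Qact : Continuous fun p : E.Q B × (D → I) => Qact D p.1 p.2 :=
  Tel.continuous_lift (φ := fun m => up (E := E) B m)
    (φ' := fun m => up (E := E) (B ⊕ D) m) (y₀ := fun _ => GenLoop.const)
    (y₀' := fun _ => GenLoop.const) (fun m g t => Qact' D m g t)
    (fun m g t => up_Qact' m g t) (by
      intro m t
      apply GenLoop.ext
      intro s
      show E.map _ (E.mul (E.pt _) _) = E.pt _
      rw [E.pt_mul, E.map_pt]) (fun m => continuous_Qact' m)

theorem Qmap_pt (e : B ≃ B') : Qmap e (E.Qpt B) = E.Qpt B' := by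
  show Qmk 0 0 (Qmap' e 0 GenLoop.const) = Qmk 0 0 GenLoop.const
  congr 1
  apply GenLoop.ext
  intro s
  exact E.map_pt _

theorem Qact_pt (t : D → I) : Qact D (E.Qpt B) t = E.Qpt (B ⊕ D) := by
  show Qmk 0 0 (Qact' D 0 GenLoop.const t) = Qmk 0 0 GenLoop.const
  congr 1
  apply GenLoop.ext
  intro s
  show E.map _ (E.mul (E.pt _) _) = E.pt _
  rw [E.pt_mul, E.map_pt]

theorem Qact_bdry (x : E.Q B) {t : D → I} (ht : t ∈ Cube.boundary D) :
    Qact D x t = E.Qpt (B ⊕ D) := by
  refine Qind (motive := fun x => Qact D x t = E.Qpt (B ⊕ D)) (fun m r g => ?_) x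
  show Qmk m r (Qact' D m g t) = _
  have : Qact' D m g t = GenLoop.const := by
    apply GenLoop.ext
    intro s
    show E.map _ (E.mul _ ((E.unit D).1 t)) = E.pt _
    rw [(E.unit D).2 t ht, E.mul_pt, E.map_pt]
  rw [this]
  exact Qmk_base m r

theorem Qmap_Qmap {B'' : Type} [Fintype B''] [DecidableEq B''] (e : B ≃ B') (f : B' ≃ B'')
    (x : E.Q B) : Qmap f (Qmap e x) = Qmap (e.trans f) x := by
  refine Qind (motive := fun x => Qmap f (Qmap e x) = Qmap (e.trans f) x)
    (fun m r g => ?_) x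
  show Qmk m r (Qmap' f m (Qmap' e m g)) = Qmk m r (Qmap' (e.trans f) m g)
  congr 1
  apply GenLoop.ext
  intro s
  show E.map _ (E.map _ (g s)) = E.map _ (g s)
  rw [← E.map_trans]
  refine congrArg (fun e => E.map e _) (Equiv.ext fun x => ?_)
  rcases x with x | x <;> rfl

/-- Naturality of the action of spheres. -/
theorem Qact_Qmap {D' : Type} [Fintype D'] [DecidableEq D'] (e : B ≃ B') (d : D ≃ D')
    (x : E.Q B) (t : D → I) :
    Qact D' (Qmap e x) (t ∘ d.symm) = Qmap (Equiv.sumCongr e d) (Qact D x t) := by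
  refine Qind (motive := fun x => Qact D' (Qmap e x) (t ∘ d.symm) =
    Qmap (Equiv.sumCongr e d) (Qact D x t)) (fun m r g => ?_) x
  show Qmk m r (Qact' D' m (Qmap' e m g) (t ∘ d.symm)) =
    Qmk m r (Qmap' (Equiv.sumCongr e d) m (Qact' D m g t))
  congr 1
  apply GenLoop.ext
  intro s
  show E.map _ (E.mul (E.map _ (g s)) (E.unit D' _)) = E.map _ (E.map _ (E.mul (g s) _))
  rw [← E.map_unit, ← E.map_mul, ← E.map_trans, ← E.map_trans]
  refine congrArg (fun e => E.map e _) (Equiv.ext fun x => ?_)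
  rcases x with (x | x) | x <;> rfl

end CSRS

/-! ## 5. The Tate construction for the group `C₂` -/

/-- The Hilbert space `ℓ²(ℕ, ℝ)`. -/
abbrev Hl : Type := lp (fun _ : ℕ => ℝ) 2

instance : NormedAddCommGroup Hl := lp.normedAddCommGroup

/-- The unit sphere of the Hilbert space `ℓ²(ℕ, ℝ)` with the antipodal action of the group `C₂`: a
contractible space with a free action (and `EC₂ → EC₂ / C₂` is a numerable principal bundle), so
a model for the universal free `C₂`-space. -/
abbrev EC₂ : Type := Metric.sphere (0 : Hl) 1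

instance : TopologicalSpace EC₂ := inferInstance

instance : Neg EC₂ := inferInstance

namespace CSRS

variable {E : CSRS}
variable {N M A B C D A' B' : Type} [Fintype A] [DecidableEq A] [Fintype B] [DecidableEq B]
  [Fintype C] [DecidableEq C] [Fintype D] [DecidableEq D] [Fintype A'] [DecidableEq A']
  [Fintype B'] [DecidableEq B']

/-- The non-trivial element of `C₂` acting on the `C₂`-set `A × C₂`. -/
def sw (A : Type) : A × Bool ≃ A × Bool := Equiv.prodCongr (Equiv.refl A) Equiv.boolNot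

variable (E) in
/-- The `A`-th space of the Tate spectrum: the space
`Map^{C₂}(EC₂, QE(A × C₂))` of `C₂`-equivariant maps, where `C₂` acts on `QE(A × C₂)` through the
finite `C₂`-set `A × C₂` (compact-open topology). -/
def T (A : Type) [Fintype A] [DecidableEq A] : Type :=
  {h : C(EC₂, E.Q (A × Bool)) // ∀ e, h (-e) = Qmap (sw A) (h e)}

instance : TopologicalSpace (E.T A) := instTopologicalSpaceSubtype

variable (E) in
/-- The base point of `T A`. -/
def Tpt (A : Type) [Fintype A] [DecidableEq A] : E.T A :=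
  ⟨ContinuousMap.const _ (E.Qpt _), fun _ => (Qmap_pt _).symm⟩

/-- The bijection `(A × C₂) ⊕ (C × C₂) ≃ (A ⊕ C) × C₂`. -/
def ds (A C : Type) : (A × Bool) ⊕ (C × Bool) ≃ (A ⊕ C) × Bool :=
  (Equiv.sumProdDistrib A C Bool).symm

variable (E) in
/-- `Qmap` as a bundled continuous map. -/
def QmapC (e : B ≃ B') : C(E.Q B, E.Q B') := ⟨Qmap e, continuous_Qmap e⟩

variable (E) in
/-- `Qact` as a bundled continuous map. -/
def QactC (B D : Type) [Fintype B] [DecidableEq B] [Fintype D] [DecidableEq D] :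
    C((D → I) × E.Q B, E.Q (B ⊕ D)) :=
  ⟨fun p => Qact D p.2 p.1, continuous_Qact.comp continuous_swap⟩

/-- The structure map `T A ∧ S^C → T (A ⊕ C)`: multiplication with `S^C → S^(C × C₂)`,
`t ↦ t ∘ fst` (the inclusion of the `C₂`-fixed points). -/
def Tact (h : E.T A) (t : C → I) : E.T (A ⊕ C) :=
  ⟨(E.QmapC (ds A C)).comp ((E.QactC (A × Bool) (C × Bool)).comp
      (ContinuousMap.prodMk (ContinuousMap.const _ (fun p : C × Bool => t p.1)) h.1)), by
    intro e
    show Qmap (ds A C) (Qact (C × Bool) (h.1 (-e)) (fun p => t p.1)) =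
      Qmap (sw (A ⊕ C)) (Qmap (ds A C) (Qact (C × Bool) (h.1 e) (fun p => t p.1)))
    rw [h.2 e]
    have h1 : (fun p : C × Bool => t p.1) = (fun p : C × Bool => t p.1) ∘ (sw C).symm := rfl
    conv_lhs => rw [h1]
    rw [Qact_Qmap, Qmap_Qmap, Qmap_Qmap]
    refine congrArg (fun e => Qmap e _) (Equiv.ext fun x => ?_)
    rcases x with ⟨x, b⟩ | ⟨x, b⟩ <;> rfl⟩

theorem Tact_apply (h : E.T A) (t : C → I) (e : EC₂) :
    (Tact h t).1 e = Qmap (ds A C) (Qact (C × Bool) (h.1 e) (fun p => t p.1)) := rfl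

theorem continuous_Tact : Continuous fun p : E.T A × (C → I) => Tact p.1 p.2 := by
  refine Continuous.subtype_mk ?_ _
  refine (ContinuousMap.continuous_postcomp (E.QmapC (ds A C))).comp
    ((ContinuousMap.continuous_postcomp (E.QactC (A × Bool) (C × Bool))).comp ?_)
  exact ContinuousMap.continuous_prodMk_const.comp
    (f := fun p : E.T A × (C → I) => ((fun q : C × Bool => p.2 q.1), p.1.1))
    (Continuous.prodMk (continuous_pi fun q => (continuous_apply q.1).comp continuous_snd)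
      (continuous_subtype_val.comp continuous_fst))

theorem Tact_pt (t : C → I) : Tact (E.Tpt A) t = E.Tpt (A ⊕ C) := by
  apply Subtype.ext
  ext e
  show Qmap (ds A C) (Qact (C × Bool) (E.Qpt _) _) = E.Qpt _
  rw [Qact_pt, Qmap_pt]

/-- The structure map `S^N ∧ S^C → T (A ⊕ C)` on maps `S^N → T A`. -/
def Tst (C : Type) [Fintype C] [DecidableEq C] (f : GenLoop N (E.T A) (E.Tpt A)) :
    GenLoop (N ⊕ C) (E.T (A ⊕ C)) (E.Tpt (A ⊕ C)) :=
  ⟨⟨fun s => Tact (f (s ∘ Sum.inl)) (s ∘ Sum.inr), by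
    exact continuous_Tact.comp
      (f := fun s : N ⊕ C → I => (f.1 (s ∘ Sum.inl), s ∘ Sum.inr))
      (Continuous.prodMk (f.1.continuous.comp (by fun_prop)) (by fun_prop))⟩, by
    rintro s ⟨i | i, hi⟩
    · have : f (s ∘ Sum.inl) = E.Tpt A := f.2 _ ⟨i, hi⟩
      show Tact (f (s ∘ Sum.inl)) _ = _
      rw [this, Tact_pt]
    · show Tact (f (s ∘ Sum.inl)) _ = _
      apply Subtype.ext
      ext e
      show Qmap (ds A C) (Qact (C × Bool) _ _) = E.Qpt _
      rw [Qact_bdry _ ⟨(i, false), hi⟩, Qmap_pt]⟩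

/-- `K(0) ∧ E^{tC₂} = 0`, that is, `π_k(E^{tC₂}) ⊗ ℚ = 0` for all `k ∈ ℤ`, for the Tate
construction `E^{tC₂}` (the cofibre of the norm `E_{hC₂} → E^{hC₂}`, trivial action on `E`) of a
semistable commutative symmetric ring spectrum `E`.

The spaces `T A` form the Tate spectrum in the following sense.  As `E` is semistable, `QE` is an
`Ω`-spectrum, and `QE(A × C₂)` is the space `Ω^∞(S^{A ⊗ ρ} ∧ E)` with its action of `C₂`, where
`ρ = ℝ[C₂] = 1 + σ` is the regular representation.  Hence `T A = Ω^∞((S^{A ⊗ ρ} ∧ E)^{hC₂})`, and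
`π_{k + n} (T (Fin n)) = π_k((S^{n σ} ∧ E)^{hC₂})`.  The structure maps are induced by the inclusion
of the fixed points `S^1 → S^ρ = S^1 ∧ S^σ`, that is by `S^0 → S^σ`.  The cofibre of the inclusion of
`S^0` in `S^{nσ}` is the suspension of the finite free `C₂`-space `S(nσ)_+`, for which the norm is
an equivalence, and `colim_n S(nσ) = EC₂`.  Hence
`colim_n (S^{nσ} ∧ E)^{hC₂}` is the cofibre of `E_{hC₂} = (EC₂_+ ∧ E)_{hC₂} → E^{hC₂}`, which is
`E^{tC₂}` (Greenlees-May, *Generalized Tate cohomology*; Nikolaus-Scholze, *On topological cyclic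
homology*, Section I), and
`π_k(E^{tC₂}) = colim_n π_{k+n} (T (Fin n))`.
So `π_*(E^{tC₂}) ⊗ ℚ = 0` means that every class of every `π_N (T A)` has a positive multiple which
becomes trivial after a stabilisation (the group `π_N` is written multiplicatively in Mathlib). -/
def TateK0Acyclic (E : CSRS) : Prop :=
  ∀ (N A : Type) [Fintype N] [DecidableEq N] [Nonempty N] [Fintype A] [DecidableEq A]
    (x : HomotopyGroup N (E.T A) (E.Tpt A)),
    ∃ (k n : ℕ) (g : GenLoop N (E.T A) (E.Tpt A)), 1 ≤ k ∧ Quotient.mk _ g = x ^ k ∧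
      GenLoop.Homotopic (Tst (Fin n) g) GenLoop.const

end CSRS

end Pool.Agent.Tate
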