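import Pool.Agent.Lib.Tate.W.Spec

/-!
# MP_071d69_gt: the witness as a commutative symmetric ring spectrum
-/

set_option linter.unusedSectionVars false

open Topology unitInterval Filter Set
open scoped Topology.Homotopy ZeroAtInfty OnePoint

noncomputable section

namespace Pool.Agent.Tate

section algebra

variable {A B C A' B' κ V : Type} [Fintype A] [DecidableEq A] [Fintype B] [DecidableEq B]
  [Fintype C] [DecidableEq C] [Fintype A'] [DecidableEq A'] [Fintype B'] [DecidableEq B']
  [Fintype κ] [DecidableEq κ]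

theorem WX.ext {c d : WX A} (h : ∀ y, c.1.P y = d.1.P y) : c = d := by
  apply Subtype.ext
  exact Conf.ext (funext h)

theorem Wmap_pt (e : A ≃ B) : Wmap e (Wpt A) = Wpt B := WX.ext fun _ => rfl

theorem Wmap_refl (c : WX A) : Wmap (Equiv.refl A) c = c := WX.ext fun _ => rfl

theorem Wmap_trans (e : A ≃ B) (f : B ≃ C) (c : WX A) :
    Wmap (e.trans f) c = Wmap f (Wmap e c) := WX.ext fun _ => rfl

theorem Wpt_mul (d : WX B) : Wmul (Wpt A) d = Wpt (A ⊕ B) := WX.ext fun _ => zero_mpr _

theorem Wmul_pt (c : WX A) : Wmul c (Wpt B) = Wpt (A ⊕ B) := WX.ext fun _ => mpr_zero _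

theorem Wmap_mul (e : A ≃ A') (f : B ≃ B') (c : WX A) (d : WX B) :
    Wmap (Equiv.sumCongr e f) (Wmul c d) = Wmul (Wmap e c) (Wmap f d) := WX.ext fun _ => rfl

theorem Wmul_assoc (c : WX A) (d : WX B) (g : WX C) :
    Wmap (Equiv.sumAssoc A B C) (Wmul (Wmul c d) g) = Wmul c (Wmul d g) :=
  WX.ext fun _ => mre_assoc _ _ _

theorem Wmul_comm (c : WX A) (d : WX B) :
    Wmap (Equiv.sumComm A B) (Wmul c d) = Wmul d c := WX.ext fun _ => mre_comm _ _

theorem Wunit_bdry {s : A → I} (h : s ∈ Cube.boundary A) : Wunit' s = Wpt A := if_pos h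

theorem Wunit_self {s : A → I} (h : s ∉ Cube.boundary A) :
    (Wunit' s).1.P (fun a => (rho (s a), 0)) = mone A 0 := by
  unfold Wunit'
  rw [if_neg h]
  exact Conf.single_self _ _ (mone_herm 0) (mone_idem 0)

theorem Wunit_ne {s : A → I} {y : A → VV} (h : y ≠ fun a => (rho (s a), 0)) :
    (Wunit' s).1.P y = 0 := by
  unfold Wunit'
  split_ifs
  · rfl
  · exact Conf.single_ne _ (mone_herm 0) (mone_idem 0) h

theorem Wmap_unit (e : A ≃ B) (s : A → I) : Wmap e (Wunit' s) = Wunit' (s ∘ e.symm) := by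
  by_cases hs : s ∈ Cube.boundary A
  · have hs' : s ∘ e.symm ∈ Cube.boundary B := by
      obtain ⟨i, hi⟩ := hs
      exact ⟨e i, by simpa using hi⟩
    rw [Wunit_bdry hs, Wunit_bdry hs', Wmap_pt]
  · have hs' : s ∘ e.symm ∉ Cube.boundary B := by
      rintro ⟨i, hi⟩
      exact hs ⟨e.symm i, hi⟩
    refine WX.ext fun y => ?_
    show mre e ((Wunit' s).1.P (y ∘ e)) = _
    by_cases hy : y = fun b => ((rho ((s ∘ e.symm) b), 0) : VV)
    · have h1 : y ∘ e = fun a => ((rho (s a), 0) : VV) := by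
        rw [hy]
        funext a
        simp
      rw [h1, Wunit_self hs, mre_mone, hy, Wunit_self hs']
    · have h1 : y ∘ e ≠ fun a => ((rho (s a), 0) : VV) := by
        intro h
        apply hy
        funext b
        have := congrFun h (e.symm b)
        simpa using this
      rw [Wunit_ne h1, Wunit_ne hy, mre_zero]

theorem Wunit_mul (s : A → I) (t : B → I) :
    Wmul (Wunit' s) (Wunit' t) = Wunit' (Sum.elim s t) := by
  by_cases hs : s ∈ Cube.boundary A
  · have hs' : Sum.elim s t ∈ Cube.boundary (A ⊕ B) := by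
      obtain ⟨i, hi⟩ := hs
      exact ⟨Sum.inl i, hi⟩
    rw [Wunit_bdry hs, Wunit_bdry hs', Wpt_mul]
  by_cases ht : t ∈ Cube.boundary B
  · have hs' : Sum.elim s t ∈ Cube.boundary (A ⊕ B) := by
      obtain ⟨i, hi⟩ := ht
      exact ⟨Sum.inr i, hi⟩
    rw [Wunit_bdry ht, Wunit_bdry hs', Wmul_pt]
  have hst : Sum.elim s t ∉ Cube.boundary (A ⊕ B) := by
    rintro ⟨i | i, hi⟩
    · exact hs ⟨i, hi⟩
    · exact ht ⟨i, hi⟩
  refine WX.ext fun y => ?_
  show mpr ((Wunit' s).1.P (y ∘ Sum.inl)) ((Wunit' t).1.P (y ∘ Sum.inr)) = _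
  by_cases hy : y = fun b => ((rho (Sum.elim s t b), 0) : VV)
  · have h1 : y ∘ Sum.inl = fun a => ((rho (s a), 0) : VV) := by
      rw [hy]
      rfl
    have h2 : y ∘ Sum.inr = fun a => ((rho (t a), 0) : VV) := by
      rw [hy]
      rfl
    rw [h1, h2, Wunit_self hs, Wunit_self ht, mpr_mone, hy, Wunit_self hst]
  · rw [Wunit_ne hy]
    by_cases h1 : y ∘ Sum.inl = fun a => ((rho (s a), 0) : VV)
    · have h2 : y ∘ Sum.inr ≠ fun a => ((rho (t a), 0) : VV) := by
        intro h2
        apply hy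
        funext b
        rcases b with b | b
        · exact congrFun h1 b
        · exact congrFun h2 b
      rw [Wunit_ne h2, mpr_zero]
    · rw [Wunit_ne h1, zero_mpr]

theorem Wone_mul (c : WX A) :
    Wmap (Equiv.emptySum Empty A) (Wmul (Wunit' (Empty.elim : Empty → I)) c) = c := by
  refine WX.ext fun y => ?_
  show mre _ (mpr ((Wunit' Empty.elim).1.P _) (c.1.P _)) = _
  have h0 : (Empty.elim : Empty → I) ∉ Cube.boundary Empty := by
    rintro ⟨i, -⟩
    exact i.elim
  have h1 : ∀ y : Empty → VV, (Wunit' (Empty.elim : Empty → I)).1.P y = mone Empty 0 := by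
    intro y
    have : y = fun a => ((rho ((Empty.elim : Empty → I) a), 0) : VV) := Subsingleton.elim _ _
    rw [this]
    exact Wunit_self h0
  rw [h1]
  ext a b
  show mone Empty 0 _ _ * c.1.P _ _ _ = _
  rw [mone_apply, if_pos ⟨Subsingleton.elim _ _, Subsingleton.elim _ _⟩, one_mul]
  rfl

end algebra

/-- The witness, given the continuity of its operations. -/
def W' (hRe : Wi.S_Re) (hMu : Wi.S_Mu) (hUn : Wi.S_Un) (hT2 : Wi.S_T2) : CSRS where
  X := WX
  pt A := Wpt A
  closed_pt A _ _ := by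
    have := hT2 (A → VV) (A → ZMod 4)
    have : T2Space (WX A) := inferInstanceAs (T2Space {c : CW A // c.Inv})
    exact isClosed_singleton
  map := Wmap
  continuous_map e := ((hRe _ _ e).comp continuous_subtype_val).subtype_mk _
  map_pt := Wmap_pt
  map_refl := Wmap_refl
  map_trans := Wmap_trans
  mul := Wmul
  continuous_mul := by
    intro A B _ _ _ _
    exact ((hMu A B).comp ((continuous_subtype_val.comp continuous_fst).prodMk
      (continuous_subtype_val.comp continuous_snd))).subtype_mk _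
  pt_mul := Wpt_mul
  mul_pt := Wmul_pt
  map_mul := Wmap_mul
  mul_assoc := Wmul_assoc
  mul_comm := Wmul_comm
  unit A := ⟨⟨Wunit', hUn A⟩, fun _ hs => Wunit_bdry hs⟩
  map_unit := Wmap_unit
  unit_mul := Wunit_mul
  one_mul := Wone_mul

end Pool.Agent.Tate
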