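import Pool.Agent.Lib.Tate.DefsT
import Pool.Agent.Lib.Tate.Conf

/-!
# MP_071d69_gt: the witness, definitions

`W A` is the space of finite configurations on `(ℝ × ℂ)^A = (1 + λ) ⊗ A`, labelled by mutually
orthogonal subspaces of `(ℂ⁴)^{⊗ A}`, which are invariant under the cyclic group of order 4
(generator: multiplication by `i` on `ℂ`, and `δ_a ↦ i^(∑ a) δ_a` on the labels).
-/

set_option linter.unusedSectionVars false

open Topology unitInterval
open scoped Topology.Homotopy ZeroAtInfty

noncomputable section

namespace Pool.Agent.Tate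

section general

variable {A B C A' B' κ V : Type} [Fintype A] [DecidableEq A] [Fintype B] [DecidableEq B]
  [Fintype C] [DecidableEq C] [Fintype A'] [DecidableEq A'] [Fintype B'] [DecidableEq B']
  [Fintype κ] [DecidableEq κ]

/-! ### Operations on configurations on `A → V` with labels in `A → κ` -/

theorem mre_zero (e : A ≃ B) : mre e (0 : Mt A κ) = 0 := rfl

theorem mre_mre (e : A ≃ B) (f : B ≃ C) (p : Mt A κ) : mre f (mre e p) = mre (e.trans f) p := rfl

theorem mre_refl (p : Mt A κ) : mre (Equiv.refl A) p = p := rfl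

theorem mre_eq_zero (e : A ≃ B) (p : Mt A κ) : mre e p = 0 ↔ p = 0 := by
  constructor
  · intro h
    have : mre e.symm (mre e p) = mre e.symm 0 := by rw [h]
    rw [mre_mre, Equiv.self_trans_symm, mre_refl, mre_zero] at this
    exact this
  · rintro rfl
    rfl

theorem mpr_zero (p : Mt A κ) : mpr p (0 : Mt B κ) = 0 := by
  ext a b
  exact mul_zero _

theorem zero_mpr (q : Mt B κ) : mpr (0 : Mt A κ) q = 0 := by
  ext a b
  exact zero_mul _

theorem mre_mpr (e : A ≃ A') (f : B ≃ B') (p : Mt A κ) (q : Mt B κ) :
    mre (Equiv.sumCongr e f) (mpr p q) = mpr (mre e p) (mre f q) := rfl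

theorem mre_assoc (p : Mt A κ) (q : Mt B κ) (r : Mt C κ) :
    mre (Equiv.sumAssoc A B C) (mpr (mpr p q) r) = mpr p (mpr q r) := by
  ext a b
  exact mul_assoc _ _ _

theorem mre_comm (p : Mt A κ) (q : Mt B κ) : mre (Equiv.sumComm A B) (mpr p q) = mpr q p := by
  ext a b
  exact mul_comm _ _

theorem mone_herm (k₀ : κ) : (mone A k₀).conjTranspose = mone A k₀ := by
  unfold mone
  rw [Matrix.conjTranspose_single, star_one]

theorem mone_idem (k₀ : κ) : mone A k₀ * mone A k₀ = mone A k₀ := by
  unfold mone
  rw [Matrix.single_mul_single_same, mul_one]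

theorem mone_apply (k₀ : κ) (a b : A → κ) :
    mone A k₀ a b = if (fun _ => k₀) = a ∧ (fun _ => k₀) = b then 1 else 0 := by
  unfold mone
  rw [Matrix.single_apply]

theorem mre_mone (e : A ≃ B) (k₀ : κ) : mre e (mone A k₀) = mone B k₀ := by
  ext a b
  show mone A k₀ (a ∘ e) (b ∘ e) = _
  rw [mone_apply, mone_apply]
  have : ∀ c : B → κ, ((fun _ => k₀) = c ∘ e) ↔ ((fun _ => k₀) = c) := by
    intro c
    constructor
    · intro h
      funext i
      have := congrFun h (e.symm i)
      simpa using this
    · rintro rfl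
      rfl
  simp only [this]

theorem mpr_mone (k₀ : κ) : mpr (mone A k₀) (mone B k₀) = mone (A ⊕ B) k₀ := by
  ext a b
  show mone A k₀ _ _ * mone B k₀ _ _ = _
  rw [mone_apply, mone_apply, mone_apply]
  have : ∀ c : A ⊕ B → κ, ((fun _ => k₀) = c) ↔ ((fun _ => k₀) = c ∘ Sum.inl ∧
      (fun _ => k₀) = c ∘ Sum.inr) := by
    intro c
    constructor
    · rintro rfl
      exact ⟨rfl, rfl⟩
    · rintro ⟨h1, h2⟩
      funext i
      rcases i with i | i
      · exact congrFun h1 i
      · exact congrFun h2 i
  have ha := this a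
  have hb := this b
  split_ifs <;> first | (simp; done) | (exfalso; tauto)

namespace Conf

/-- Reindexing of a configuration along a bijection `A ≃ B`. -/
def re (e : A ≃ B) (c : Conf (A → V) (A → κ)) : Conf (B → V) (B → κ) where
  P y := mre e (c.P (y ∘ e))
  fin := by
    refine (c.fin.preimage (f := fun y : B → V => y ∘ e) ?_).subset ?_
    · intro y _ y' _ h
      exact e.surjective.injective_comp_right h
    · intro y hy hy'
      exact hy (by rw [hy', mre_zero])
  herm y := by
    show (mre e _).conjTranspose = _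
    rw [mre_conjTranspose, (c.herm _).eq]
  idem y := by rw [← mre_mul, c.idem]
  orth y y' h := by
    rw [← mre_mul, c.orth, mre_zero]
    intro h'
    exact h (e.surjective.injective_comp_right h')

/-- The exterior product of configurations. -/
def mul (c : Conf (A → V) (A → κ)) (d : Conf (B → V) (B → κ)) : Conf (A ⊕ B → V) (A ⊕ B → κ) where
  P z := mpr (c.P (z ∘ Sum.inl)) (d.P (z ∘ Sum.inr))
  fin := by
    refine ((c.fin.prod d.fin).preimage
      (f := fun z : A ⊕ B → V => (z ∘ Sum.inl, z ∘ Sum.inr)) ?_).subset ?_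
    · intro y _ y' _ h
      exact (Equiv.sumArrowEquivProdArrow A B V).injective h
    · intro z hz
      constructor
      · intro h
        exact hz (by
          show mpr _ _ = _
          rw [h, zero_mpr])
      · intro h
        exact hz (by
          show mpr _ _ = _
          rw [h, mpr_zero])
  herm z := by
    show (mpr _ _).conjTranspose = _
    rw [mpr_conjTranspose, (c.herm _).eq, (d.herm _).eq]
  idem z := by rw [← mpr_mul, c.idem, d.idem]
  orth z z' h := by
    rw [← mpr_mul]
    by_cases h1 : z ∘ Sum.inl = z' ∘ Sum.inl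
    · have h2 : z ∘ Sum.inr ≠ z' ∘ Sum.inr := by
        intro h2
        exact h ((Equiv.sumArrowEquivProdArrow A B V).injective (Prod.ext h1 h2))
      rw [d.orth _ _ h2, mpr_zero]
    · rw [c.orth _ _ h1, zero_mpr]

open Classical in
/-- The configuration which consists of one point `y` with label `p`. -/
def single {Y ι : Type} [Fintype ι] (y : Y) (p : Matrix ι ι ℂ) (h1 : p.IsHermitian)
    (h2 : p * p = p) : Conf Y ι where
  P y' := if y' = y then p else 0
  fin := by
    refine (Set.finite_singleton y).subset ?_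
    intro y' hy'
    by_contra hne
    exact hy' (if_neg hne)
  herm y' := by
    split_ifs
    · exact h1
    · exact Matrix.isHermitian_zero
  idem y' := by
    split_ifs
    · exact h2
    · exact zero_mul _
  orth y' y'' h := by
    split_ifs with h3 h4
    · exact absurd (h3.trans h4.symm) h
    · exact mul_zero _
    · exact zero_mul _
    · exact zero_mul _

theorem single_self {Y ι : Type} [Fintype ι] (y : Y) (p : Matrix ι ι ℂ) (h1 : p.IsHermitian)
    (h2 : p * p = p) : (single y p h1 h2).P y = p := if_pos rfl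

theorem single_ne {Y ι : Type} [Fintype ι] {y y' : Y} (p : Matrix ι ι ℂ) (h1 : p.IsHermitian)
    (h2 : p * p = p) (h : y' ≠ y) : (single y p h1 h2).P y' = 0 := if_neg h

end Conf

end general

/-! ### The witness -/

section W

variable {A B C A' B' : Type} [Fintype A] [DecidableEq A] [Fintype B] [DecidableEq B]
  [Fintype C] [DecidableEq C] [Fintype A'] [DecidableEq A'] [Fintype B'] [DecidableEq B']

/-- The real representation `1 + λ` of the cyclic group of order 4. -/
abbrev VV := ℝ × ℂ

/-- Configurations on `(1 + λ)^A` with labels in `(ℂ⁴)^{⊗ A}`. -/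
abbrev CW (A : Type) [Fintype A] [DecidableEq A] := Conf (A → VV) (A → ZMod 4)

/-- The action of the generator of the cyclic group of order 4 on `(1 + λ)^A`. -/
def rot (y : A → VV) : A → VV := fun a => ((y a).1, Complex.I * (y a).2)

/-- The character by which the generator acts on the basis vector `a` of `(ℂ⁴)^{⊗ A}`. -/
def chi (a : A → ZMod 4) : ℂ := ∏ x, Complex.I ^ (a x).val

/-- Invariance under the cyclic group of order 4: `P (rot y) = D P(y) D⁻¹`, `D = diag (chi a)`. -/
def CW.Inv (c : CW A) : Prop :=
  ∀ (y : A → VV) (a b : A → ZMod 4), c.P (rot y) a b = chi a * (starRingEnd ℂ) (chi b) * c.P y a b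

/-- The `A`-th space of the witness. -/
def WX (A : Type) [Fintype A] [DecidableEq A] : Type := {c : CW A // c.Inv}

instance : TopologicalSpace (WX A) := instTopologicalSpaceSubtype

theorem norm_chi (a : A → ZMod 4) : chi a * (starRingEnd ℂ) (chi a) = 1 := by
  unfold chi
  rw [map_prod, ← Finset.prod_mul_distrib]
  refine Finset.prod_eq_one fun x _ => ?_
  rw [map_pow, ← mul_pow, Complex.conj_I]
  simp

theorem chi_comp (e : A ≃ B) (b : B → ZMod 4) : chi (b ∘ e) = chi b := by
  unfold chi
  exact Fintype.prod_equiv e _ _ fun x => rfl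

theorem chi_sum (a : A ⊕ B → ZMod 4) : chi a = chi (a ∘ Sum.inl) * chi (a ∘ Sum.inr) := by
  unfold chi
  rw [Fintype.prod_sum_type]
  rfl

theorem chi_zero : chi (fun _ : A => (0 : ZMod 4)) = 1 := by
  unfold chi
  simp

/-- The base point: the empty configuration. -/
def Wpt (A : Type) [Fintype A] [DecidableEq A] : WX A :=
  ⟨default, fun y a b => by simp⟩

/-- Reindexing. -/
def Wmap (e : A ≃ B) (c : WX A) : WX B :=
  ⟨c.1.re e, fun y a b => by
    show c.1.P (rot y ∘ e) (a ∘ e) (b ∘ e) = _ * c.1.P (y ∘ e) (a ∘ e) (b ∘ e)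
    have h := c.2 (y ∘ e) (a ∘ e) (b ∘ e)
    rw [chi_comp, chi_comp] at h
    exact h⟩

/-- The product. -/
def Wmul (c : WX A) (d : WX B) : WX (A ⊕ B) :=
  ⟨c.1.mul d.1, fun y a b => by
    show c.1.P (rot (y ∘ Sum.inl)) (a ∘ Sum.inl) (b ∘ Sum.inl) *
        d.1.P (rot (y ∘ Sum.inr)) (a ∘ Sum.inr) (b ∘ Sum.inr) =
      _ * (c.1.P (y ∘ Sum.inl) (a ∘ Sum.inl) (b ∘ Sum.inl) *
        d.1.P (y ∘ Sum.inr) (a ∘ Sum.inr) (b ∘ Sum.inr))
    rw [c.2, d.2, chi_sum a, chi_sum b, map_mul]
    ring⟩

/-- A homeomorphism from the open unit interval to the real line. -/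
def rho (t : I) : ℝ := (2 * (t : ℝ) - 1) / ((t : ℝ) * (1 - t))

theorem rot_real (y : A → ℝ) : rot (fun a => ((y a, 0) : VV)) = fun a => (y a, 0) := by
  funext a
  unfold rot
  simp

theorem chi_mone (a b : A → ZMod 4) :
    mone A (0 : ZMod 4) a b = chi a * (starRingEnd ℂ) (chi b) * mone A (0 : ZMod 4) a b := by
  rw [mone_apply]
  split_ifs with h
  · rw [← h.1, ← h.2, chi_zero]
    simp
  · simp

theorem rot_injective : Function.Injective (rot : (A → VV) → A → VV) := by
  intro y y' h
  funext a
  have := congrFun h a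
  unfold rot at this
  rw [Prod.mk.injEq] at this
  exact Prod.ext this.1 (mul_left_cancel₀ Complex.I_ne_zero this.2)

open Classical in
/-- The unit map. -/
def Wunit' (s : A → I) : WX A :=
  if s ∈ Cube.boundary A then Wpt A else
    ⟨Conf.single (fun a => (rho (s a), 0)) (mone A 0) (mone_herm 0) (mone_idem 0), by
      intro y a b
      have h : rot (fun a => ((rho (s a), 0) : VV)) = fun a => ((rho (s a), 0) : VV) :=
        rot_real _
      by_cases hy : y = fun a => ((rho (s a), 0) : VV)
      · rw [hy, h, Conf.single_self]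
        exact chi_mone a b
      · have hy' : rot y ≠ fun a => ((rho (s a), 0) : VV) := by
          rw [← h]
          exact fun h' => hy (rot_injective h')
        rw [Conf.single_ne _ _ _ hy, Conf.single_ne _ _ _ hy']
        simp⟩

end W

end Pool.Agent.Tate
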